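import Pool.Agent.Q223.TE.Transfer

/-!
# The equivariant motivic monodromy conjecture: reduction to programs
-/

set_option autoImplicit false
set_option linter.unusedSectionVars false
set_option linter.unusedVariables false

namespace Pool.Agent.Q223.TE

open MvPolynomial Pool.Agent.TH192.MT Pool.Agent.Q223.ID
open Pool.Agent.W428.MOT hiding wt
open Pool.Agent.Q223.TW.LK (TJ)
open Pool.Agent.Q57.QE (wt valid_zero)
open Pool.Agent.Y229.MS (addyz itr stabK)
open Pool.Agent.W63.MEFin (mapEMeas)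

section loc

variable {k : Type} [Field k] {m n : ℕ} {F : MvPolynomial (Fin m) k} {f : MvPolynomial (Fin n) k}
  (P : K0Mu F →+* K0Mu f) (hP : P (LMu F) = LMu f)

/-- the localization -/
noncomputable def PL : MKMu F →+* MKMu f :=
  IsLocalization.Away.lift (LMu F) (g := (algebraMap (K0Mu f) (MKMu f)).comp P) (by
    rw [RingHom.comp_apply, hP]
    exact IsLocalization.Away.algebraMap_isUnit (S := MKMu f) (LMu f))

theorem PL_algebraMap (x : K0Mu F) : PL P hP (algebraMap (K0Mu F) (MKMu F) x) =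
    algebraMap (K0Mu f) (MKMu f) (P x) := by
  unfold PL
  rw [IsLocalization.Away.lift_eq]
  rfl

theorem PL_Lu : Units.map (PL P hP : MKMu F →* MKMu f) (LuMu F) = LuMu f := by
  apply Units.ext
  change PL P hP (((LuMu F : (MKMu F)ˣ)) : MKMu F) = ((LuMu f : (MKMu f)ˣ) : MKMu f)
  have h1 : (((LuMu F : (MKMu F)ˣ)) : MKMu F) = algebraMap (K0Mu F) (MKMu F) (LMu F) := rfl
  have h2 : ((LuMu f : (MKMu f)ˣ) : MKMu f) = algebraMap (K0Mu f) (MKMu f) (LMu f) := rfl
  rw [h1, h2, PL_algebraMap, hP]

end loc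

section map

variable {R R' : Type} [CommRing R] [CommRing R'] (φ : R →+* R') {u : Rˣ} {u' : R'ˣ}
  (hu : Units.map (φ : R →* R') u = u')

include hu

theorem map_geoR (a b : ℤ) (hb : 0 < b) :
    PowerSeries.map φ (geoR u a b) = geoR u' a b := by
  have h1 := congrArg (PowerSeries.map φ) (geo_mul (uu := u) a b hb)
  have h2 := geo_mul (uu := u') a b hb
  have h3 : φ ((u ^ a : Rˣ) : R) = ((u' ^ a : R'ˣ) : R') := by
    rw [← hu, ← map_zpow]
    rfl
  rw [map_mul, map_one, map_sub, map_one, map_mul, map_pow, PowerSeries.map_C, PowerSeries.map_X,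
    h3] at h1
  calc PowerSeries.map φ (geoR u a b)
      = ((1 - PowerSeries.C ((u' ^ a : R'ˣ) : R') * PowerSeries.X ^ b.toNat) *
          geoR u' a b) * PowerSeries.map φ (geoR u a b) := by
        rw [h2, one_mul]
    _ = geoR u' a b *
        ((1 - PowerSeries.C ((u' ^ a : R'ˣ) : R') * PowerSeries.X ^ b.toNat) *
          PowerSeries.map φ (geoR u a b)) := by ring
    _ = geoR u' a b := by rw [h1, mul_one]

theorem map_mem {S : Set (ℤ × ℤ)} (hS : ∀ p ∈ S, 0 < p.2) {z : PowerSeries R}
    (hz : z ∈ rr u S) : PowerSeries.map φ z ∈ rr u' S := by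
  unfold rr at hz
  refine Algebra.adjoin_induction (p := fun z _ => PowerSeries.map φ z ∈ rr u' S) ?_ ?_ ?_ ?_ hz
  · rintro x (hx | ⟨p, hp, rfl⟩)
    · rw [Set.mem_singleton_iff] at hx
      rw [hx, PowerSeries.map_X]
      exact X_mem _
    · rw [map_geoR φ hu _ _ (hS p hp)]
      exact geo_mem hp
  · intro r
    rw [PowerSeries.algebraMap_apply, Algebra.algebraMap_self, RingHom.id_apply, PowerSeries.map_C]
    exact C_mem _ _
  · intro x y _ _ hx hy
    rw [map_add]
    exact (rr u' _).add_mem hx hy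
  · intro x y _ _ hx hy
    rw [map_mul]
    exact (rr u' _).mul_mem hx hy

end map

section main

variable {k : Type} [Field k] [CharZero k] {n : ℕ} (f : MvPolynomial (Fin n) k)

/-- **The equivariant zeta functions of the programs.** -/
theorem exists_seq : ∃ Z : ℕ → PowerSeries (MKMu f),
    Z 0 = zetaE f ∧ RecR (LuMu f) (fun j => fstR (LuMu f) * Z j) ∧
    ∀ (κ : ℕ) (F : MvPolynomial (Fin (n + (κ + κ))) k)
      (ψ : MvPolynomial (Fin (n + (κ + κ))) k ≃ₐ[k] MvPolynomial (Fin (n + (κ + κ))) k),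
      ψ (stabK f κ) = F → ∀ S : Set (ℤ × ℤ), (∀ p ∈ S, 0 < p.2) →
        InRat (LuMu F) S (zetaE F) → InRat (LuMu f) S (Z κ) := by
  obtain ⟨M₀, hL₀, hM₀⟩ := Pool.Agent.W358.ME.EK0.main k f
  set M := mapEMeas M₀ (algebraMap (K0Mu f) (MKMu f)) with hM
  have hL : M.L = ((LuMu f : (MKMu f)ˣ) : MKMu f) := congrArg (algebraMap (K0Mu f) (MKMu f)) hL₀
  have hω : TT M f (WI f 0) (eI n 0) 1 0 = 1 := by
    have h1 : M₀.χ _ (TJ f (WI f 0) 1 0) 0 1 (bs (eI n 0) 0) = 1 := by
      refine (hM₀ _ _ _ _ _ (valid_TJ0 (pd_WI f 0) f 1 0)).trans ?_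
      refine cls_base f (valid_TJ0 (pd_WI f 0) f 1 0) (fun i => (i, 0)) (fun i => rfl) ?_ ?_
        (fun p => p.1) ?_ (fun i => rfl)
      · rintro ⟨i, a⟩
        exact ⟨i, Prod.ext rfl (Fin.ext (by have := a.2; simp only [Fin.val_zero]; omega))⟩
      · intro z
        constructor
        · rintro ⟨h, -⟩
          exact h
        · intro h
          refine ⟨h, fun j hj => ?_⟩
          obtain rfl : j = 0 := by omega
          rw [coeff_zero_ar]
          exact h
      · rintro ⟨i, a⟩
        exact Prod.ext rfl (Fin.ext (by have := a.2; simp only [Fin.val_zero]; omega))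
    unfold TT
    show algebraMap (K0Mu f) (MKMu f) (M₀.χ _ (TJ f (WI f 0) 1 0) 0 1 (bs (eI n 0) 0)) = 1
    rw [h1, map_one]
  have hOO : ∀ j N, OO M (itr f j) (WI f j) (eI n j) N =
      algebraMap (K0Mu f) (MKMu f) (OO M₀ (itr f j) (WI f j) (eI n j) N) := fun j N => rfl
  refine ⟨fun j => sr (LuMu f) (n + 2 * j) (OO M (itr f j) (WI f j) (eI n j)), ?_,
    rec_TE f M hL hω, ?_⟩
  · ext N
    rw [coeff_sr, zetaE_eq]
    unfold zetaMu
    rw [PowerSeries.coeff_mk]
    by_cases hN : N = 0
    · rw [if_pos hN, dif_neg (by omega)]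
    · have hN0 : 0 < N := Nat.pos_of_ne_zero hN
      rw [if_neg hN, dif_pos hN0, hOO]
      congr 1
      · congr 1
        have h2 := hM₀ _ _ _ _ _ (jetValid f N hN0)
        rw [← h2]
        unfold OO
        have h3 : JetS (itr f 0) (WI f 0) {1} N = Pool.Agent.W428.MOT.JetE f N := by
          ext z
          constructor
          · rintro ⟨h4, h5, h6⟩ j hj
            split_ifs with h7
            · rw [h7]
              exact h6
            · exact h5 j (by omega)
          · intro h4
            refine ⟨?_, fun j hj => ?_, ?_⟩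
            · have h5 := h4 0 (Nat.zero_le _)
              rw [if_neg (by omega)] at h5
              show aeval (fun i => z (i, 0)) f = 0
              rw [← coeff_zero_ar]
              exact h5
            · have h5 := h4 j hj.le
              rw [if_neg (by omega)] at h5
              exact h5
            · have h5 := h4 N le_rfl
              rw [if_pos rfl] at h5
              exact h5
        rw [h3]
        rfl
      · rw [zpow_neg, zpow_natCast, ← inv_pow, Units.val_pow_eq_pow_val]
        rfl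
  · intro κ F ψ hψ S hS hz
    obtain ⟨χ, hχ⟩ := Pool.Agent.Y405.MS.itr k f κ
    have hΨ : (χ.trans ψ) (itr f κ) = F := by
      show ψ (χ (itr f κ)) = F
      rw [hχ, hψ]
    obtain ⟨P, hPL, hPd⟩ := Pool.Agent.Q184.TE.pull k F f (Ph (χ.trans ψ))
      (fun x h0 => Ph_zero f (χ.trans ψ) hΨ x h0)
    have h1 : PowerSeries.map (PL P hPL) (zetaE F) =
        sr (LuMu f) (n + 2 * κ) (OO M (itr f κ) (WI f κ) (eI n κ)) := by
      ext N
      rw [PowerSeries.coeff_map, coeff_sr, zetaE_eq]
      unfold zetaMu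
      rw [PowerSeries.coeff_mk]
      by_cases hN : N = 0
      · rw [if_pos hN, dif_neg (by omega), map_zero]
      · have hN0 : 0 < N := Nat.pos_of_ne_zero hN
        rw [if_neg hN, dif_pos hN0, map_mul, PL_algebraMap, hOO]
        congr 1
        · congr 1
          rw [hPd _ _ _ _ _ (jetValid F N hN0) (valid_pb f (χ.trans ψ) N hN0)]
          exact cls_pb f (χ.trans ψ) M₀ hM₀ hΨ N hN0
        · have h2 : PL P hPL (((LuMu F) ^ (-(((n + (κ + κ)) * N : ℕ) : ℤ)) : (MKMu F)ˣ) : MKMu F) =
              (((LuMu f) ^ (-(((n + (κ + κ)) * N : ℕ) : ℤ)) : (MKMu f)ˣ) : MKMu f) := by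
            rw [← PL_Lu P hPL, ← map_zpow]
            rfl
          rw [h2, zpow_neg, zpow_natCast, ← inv_pow, Units.val_pow_eq_pow_val, ← two_mul]
    have h2 := map_mem (PL P hPL) (PL_Lu P hPL) hS hz
    rw [h1] at h2
    exact h2

end main

end Pool.Agent.Q223.TE
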