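import Pool.Agent.Q223.TW.DescK
import Pool.Agent.Q223.TW.Series
import Pool.Agent.Y229.MS.Step
import Pool.Agent.W428.MOT.EShort

/-!
# Rational power series over a ring with a unit
-/

set_option autoImplicit false
set_option linter.unusedSectionVars false

namespace Pool.Agent.Q223.TE

open Pool.Agent.W428.MOT (geoR InRat)
open Pool.Agent.Q223.TW (two_slopes geoS geoS_mul slope_eq)
open Pool.Agent.Q223.TW.LK (rat_identity)
open Pool.Agent.Y229.MS (shn shn_pos shn_shn shn_union rescale_C' rescale_X')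

variable {R : Type} [CommRing R] (uu : Rˣ)

/-- the ring of rational functions -/
noncomputable def rr (S : Set (ℤ × ℤ)) : Subalgebra R (PowerSeries R) :=
  Algebra.adjoin R ({PowerSeries.X} ∪ {g | ∃ p ∈ S, g = geoR uu p.1 p.2})

theorem rr_iff (S : Set (ℤ × ℤ)) (z : PowerSeries R) : InRat uu S z ↔ z ∈ rr uu S := Iff.rfl

variable {uu}

theorem rr_mono {S T : Set (ℤ × ℤ)} (h : S ⊆ T) {z : PowerSeries R} (hz : z ∈ rr uu S) :
    z ∈ rr uu T := by
  refine Algebra.adjoin_mono ?_ hz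
  rintro x (hx | ⟨p, hp, rfl⟩)
  · exact Or.inl hx
  · exact Or.inr ⟨p, h hp, rfl⟩

theorem geo_mul (a b : ℤ) (hb : 0 < b) :
    (1 - PowerSeries.C ((uu ^ a : Rˣ) : R) * PowerSeries.X ^ b.toNat) *
      geoR uu a b = 1 := by
  unfold geoR
  refine PowerSeries.mul_invOfUnit _ 1 ?_
  have hb' : b.toNat ≠ 0 := by omega
  simp [hb']

theorem geo_mem {S : Set (ℤ × ℤ)} {p : ℤ × ℤ} (hp : p ∈ S) : geoR uu p.1 p.2 ∈ rr uu S :=
  Algebra.subset_adjoin (Or.inr ⟨p, hp, rfl⟩)

theorem X_mem (S : Set (ℤ × ℤ)) : (PowerSeries.X : PowerSeries R) ∈ rr uu S :=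
  Algebra.subset_adjoin (Or.inl rfl)

theorem C_mem (S : Set (ℤ × ℤ)) (a : R) : PowerSeries.C a ∈ rr uu S := by
  have := (rr uu S).algebraMap_mem a
  simpa [PowerSeries.algebraMap_apply] using this

theorem poly_mem (S : Set (ℤ × ℤ)) (P : Polynomial R) :
    (P : PowerSeries R) ∈ rr uu S := by
  induction P using Polynomial.induction_on' with
  | add p q hp hq =>
    rw [Polynomial.coe_add]
    exact (rr uu S).add_mem hp hq
  | monomial n a =>
    rw [← Polynomial.C_mul_X_pow_eq_monomial, Polynomial.coe_mul, Polynomial.coe_C,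
      Polynomial.coe_pow, Polynomial.coe_X]
    exact (rr uu S).mul_mem (C_mem S a) ((rr uu S).pow_mem (X_mem S) n)


/-! ### Denominators and intersections -/


/-- the factor `1 - 𝕃 ^ a T ^ b` -/
noncomputable def gc (uu : Rˣ) (p : ℤ × ℤ) : Polynomial R :=
  1 - Polynomial.C ((uu ^ p.1 : Rˣ) : R) * Polynomial.X ^ p.2.toNat

theorem coe_gc (p : ℤ × ℤ) : (gc uu p : PowerSeries R) =
    1 - PowerSeries.C ((uu ^ p.1 : Rˣ) : R) * PowerSeries.X ^ p.2.toNat := by
  unfold gc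
  rw [Polynomial.coe_sub, Polynomial.coe_one, Polynomial.coe_mul, Polynomial.coe_C,
    Polynomial.coe_pow, Polynomial.coe_X]

theorem gc_geo {p : ℤ × ℤ} (hp : 0 < p.2) : (gc uu p : PowerSeries R) * geoR uu p.1 p.2 = 1 := by
  rw [coe_gc]
  exact geo_mul _ _ hp

/-- the denominators of the elements of the ring -/
theorem exists_denom {S : Set (ℤ × ℤ)} (hS : ∀ p ∈ S, 0 < p.2) {Z : PowerSeries R}
    (hZ : Z ∈ rr uu S) : ∃ s : Multiset (ℤ × ℤ), (∀ p ∈ s, p ∈ S) ∧
      ∃ P : Polynomial R, Z * ((s.map (gc uu)).prod : Polynomial R) = P := by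
  unfold rr at hZ
  refine Algebra.adjoin_induction (p := fun (Z : PowerSeries R) _ =>
    ∃ s : Multiset (ℤ × ℤ), (∀ p ∈ s, p ∈ S) ∧
      ∃ P : Polynomial R, Z * ((s.map (gc uu)).prod : Polynomial R) = P) ?_ ?_ ?_ ?_ hZ
  · rintro x (hx | ⟨p, hp, rfl⟩)
    · rw [Set.mem_singleton_iff] at hx
      refine ⟨0, fun p hp => absurd hp (Multiset.notMem_zero p), Polynomial.X, ?_⟩
      rw [Multiset.map_zero, Multiset.prod_zero, Polynomial.coe_one, mul_one, Polynomial.coe_X, hx]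
    · refine ⟨{p}, fun q hq => ?_, 1, ?_⟩
      · rw [Multiset.mem_singleton] at hq
        rw [hq]
        exact hp
      · rw [Multiset.map_singleton, Multiset.prod_singleton, mul_comm, gc_geo (hS p hp),
          Polynomial.coe_one]
  · intro r
    refine ⟨0, fun p hp => absurd hp (Multiset.notMem_zero p), Polynomial.C r, ?_⟩
    rw [Multiset.map_zero, Multiset.prod_zero, Polynomial.coe_one, mul_one, Polynomial.coe_C,
      PowerSeries.algebraMap_apply, Algebra.algebraMap_self, RingHom.id_apply]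
  · rintro x y _ _ ⟨s, hs, P, hP⟩ ⟨t, ht, Q, hQ⟩
    refine ⟨s + t, fun p hp => ?_, P * (t.map (gc uu)).prod + Q * (s.map (gc uu)).prod, ?_⟩
    · rcases Multiset.mem_add.1 hp with h | h
      · exact hs p h
      · exact ht p h
    · rw [Multiset.map_add, Multiset.prod_add, Polynomial.coe_add, Polynomial.coe_mul,
        Polynomial.coe_mul, Polynomial.coe_mul, ← hP, ← hQ]
      ring
  · rintro x y _ _ ⟨s, hs, P, hP⟩ ⟨t, ht, Q, hQ⟩
    refine ⟨s + t, fun p hp => ?_, P * Q, ?_⟩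
    · rcases Multiset.mem_add.1 hp with h | h
      · exact hs p h
      · exact ht p h
    · rw [Multiset.map_add, Multiset.prod_add, Polynomial.coe_mul, Polynomial.coe_mul, ← hP, ← hQ]
      ring

theorem inv_denom {S : Set (ℤ × ℤ)} (hS : ∀ p ∈ S, 0 < p.2) (s : Multiset (ℤ × ℤ))
    (hs : ∀ p ∈ s, p ∈ S) : ∃ V ∈ rr uu S,
      (((s.map (gc uu)).prod : Polynomial R) : PowerSeries R) * V = 1 := by
  induction s using Multiset.induction_on with
  | empty =>
    refine ⟨1, (rr uu S).one_mem, ?_⟩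
    rw [Multiset.map_zero, Multiset.prod_zero, Polynomial.coe_one, mul_one]
  | cons p s ih =>
    obtain ⟨V, hV, h⟩ := ih fun q hq => hs q (Multiset.mem_cons_of_mem hq)
    have hp := hs p (Multiset.mem_cons_self p s)
    refine ⟨geoR uu p.1 p.2 * V, (rr uu S).mul_mem (geo_mem hp) hV, ?_⟩
    rw [Multiset.map_cons, Multiset.prod_cons, Polynomial.coe_mul]
    have h1 := gc_geo (uu := uu) (hS p hp)
    linear_combination (gc uu p * geoR uu p.1 p.2 : PowerSeries R) * h + h1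

theorem mem_of_denom {S : Set (ℤ × ℤ)} (hS : ∀ p ∈ S, 0 < p.2) {s : Multiset (ℤ × ℤ)}
    (hs : ∀ p ∈ s, p ∈ S) {Z : PowerSeries R} {P : Polynomial R}
    (h : Z * ((s.map (gc uu)).prod : Polynomial R) = P) : Z ∈ rr uu S := by
  obtain ⟨V, hV, h1⟩ := inv_denom (uu := uu) hS s hs
  have h2 : Z = P * V := by
    rw [← h]
    linear_combination (-Z) * h1
  rw [h2]
  exact (rr uu S).mul_mem (poly_mem _ _) hV

/-- **The intersection.** -/
theorem rr_inter {S T : Set (ℤ × ℤ)} (hS : ∀ p ∈ S, 0 < p.2) (hT : ∀ p ∈ T, 0 < p.2)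
    {Z : PowerSeries R} (hZS : Z ∈ rr uu S) (hZT : Z ∈ rr uu T) :
    ∃ D : ℕ, 0 < D ∧ Z ∈ rr uu
      (insert (-(D : ℤ), (D : ℤ)) {p ∈ S | ∃ q ∈ T, p.1 * q.2 = q.1 * p.2}) := by
  classical
  obtain ⟨s, hs, P, hP⟩ := exists_denom hS hZS
  obtain ⟨t, ht, Q, hQ⟩ := exists_denom hT hZT
  -- the exponent `D`
  set dt : (ℤ × ℤ) → (ℤ × ℤ) → ℕ := fun p q => max 1 (p.1 * q.2 - q.1 * p.2).natAbs with hdt
  set D : ℕ := (s.map fun p => (t.map fun q => dt p q).prod).prod with hD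
  have hD0 : 0 < D := by
    rw [hD]
    refine Nat.pos_of_ne_zero fun h0 => ?_
    rw [Multiset.prod_eq_zero_iff, Multiset.mem_map] at h0
    obtain ⟨p, -, h1⟩ := h0
    rw [Multiset.prod_eq_zero_iff, Multiset.mem_map] at h1
    obtain ⟨q, -, h2⟩ := h1
    have h3 : 1 ≤ dt p q := le_max_left _ _
    omega
  have hdvd : ∀ p ∈ s, ∀ q ∈ t, p.1 * q.2 ≠ q.1 * p.2 → p.1 * q.2 - q.1 * p.2 ∣ (D : ℤ) := by
    intro p hp q hq hne
    have h1 : dt p q ∣ D := (Multiset.dvd_prod (Multiset.mem_map_of_mem _ hq)).trans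
      (Multiset.dvd_prod (Multiset.mem_map_of_mem (fun p => (t.map fun q => dt p q).prod) hp))
    have h2 : dt p q = (p.1 * q.2 - q.1 * p.2).natAbs := by
      refine max_eq_right ?_
      have := Int.natAbs_pos.2 (sub_ne_zero.2 hne)
      omega
    rw [h2] at h1
    exact Int.natAbs_dvd_natAbs.1 (by simpa using h1)
  refine ⟨D, hD0, ?_⟩
  set U : Set (ℤ × ℤ) := insert (-(D : ℤ), (D : ℤ)) {p ∈ S | ∃ q ∈ T, p.1 * q.2 = q.1 * p.2}
    with hU
  set w : Multiset (ℤ × ℤ) := (-(D : ℤ), (D : ℤ)) ::ₘ s.filter fun p =>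
    ∃ q ∈ T, p.1 * q.2 = q.1 * p.2 with hw
  have hwU : ∀ p ∈ w, p ∈ U := by
    intro p hp
    rcases Multiset.mem_cons.1 hp with rfl | h
    · exact Set.mem_insert _ _
    · rw [Multiset.mem_filter] at h
      exact Set.mem_insert_of_mem _ ⟨hs p h.1, h.2⟩
  have hUpos : ∀ p ∈ U, 0 < p.2 := by
    rintro p (rfl | ⟨h, -⟩)
    · exact Int.natCast_pos.2 hD0
    · exact hS p h
  set J : Ideal (Polynomial R) := Ideal.span {(s.map (gc uu)).prod, (t.map (gc uu)).prod}
    with hJ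
  set Lp : (Polynomial R)ˣ := Units.map (Polynomial.C : R →+* _).toMonoidHom uu
    with hLp
  have hgc : ∀ p : ℤ × ℤ, gc uu p = 1 - ((Lp ^ p.1 : (Polynomial R)ˣ) : Polynomial R) *
      Polynomial.X ^ p.2.toNat := by
    intro p
    unfold gc
    rw [hLp, ← map_zpow]
    rfl
  have hrad : (w.map (gc uu)).prod ∈ J.radical := by
    rw [Ideal.radical_eq_sInf, Ideal.mem_sInf]
    rintro Q ⟨hJQ, hQp⟩
    have h1 : (s.map (gc uu)).prod ∈ Q := hJQ (Ideal.subset_span (Or.inl rfl))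
    have h2 : (t.map (gc uu)).prod ∈ Q := hJQ (Ideal.subset_span (Or.inr rfl))
    rw [hQp.multiset_prod_mem_iff_exists_mem] at h1 h2
    obtain ⟨x, hx, h1⟩ := h1
    obtain ⟨y, hy, h2⟩ := h2
    rw [Multiset.mem_map] at hx hy
    obtain ⟨p, hp, rfl⟩ := hx
    obtain ⟨q, hq, rfl⟩ := hy
    rw [hQp.multiset_prod_mem_iff_exists_mem]
    by_cases hc : ∃ q ∈ T, p.1 * q.2 = q.1 * p.2
    · exact ⟨gc uu p, Multiset.mem_map_of_mem _ (Multiset.mem_cons_of_mem
        (Multiset.mem_filter.2 ⟨hp, hc⟩)), h1⟩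
    · refine ⟨gc uu (-(D : ℤ), (D : ℤ)), Multiset.mem_map_of_mem _ (Multiset.mem_cons_self _ _), ?_⟩
      have hne : p.1 * q.2 ≠ q.1 * p.2 := fun h => hc ⟨q, ht q hq, h⟩
      rw [hgc] at h1 h2 ⊢
      exact two_slopes Q Lp _ (hS p (hs p hp)) (hT q (ht q hq)) h1 h2 (hdvd p hp q hq hne)
  obtain ⟨N, hN⟩ := hrad
  rw [hJ, Ideal.mem_span_pair] at hN
  obtain ⟨a1, a2, huv⟩ := hN
  have hfin : Z * (((N • w).map (gc uu)).prod : Polynomial R) = (a1 * P + a2 * Q :
      Polynomial R) := by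
    rw [Multiset.map_nsmul, Multiset.prod_nsmul, ← huv, Polynomial.coe_add, Polynomial.coe_mul,
      Polynomial.coe_mul, Polynomial.coe_add, Polynomial.coe_mul, Polynomial.coe_mul, ← hP, ← hQ]
    ring
  exact mem_of_denom hUpos (fun p hp => hwU p (Multiset.mem_of_mem_nsmul hp)) hfin

/-- finitely many pairs suffice -/
theorem exists_finset {S : Set (ℤ × ℤ)} (hS : ∀ p ∈ S, 0 < p.2) {Z : PowerSeries R}
    (hZ : Z ∈ rr uu S) : ∃ S' : Finset (ℤ × ℤ), (∀ p ∈ S', p ∈ S) ∧ Z ∈ rr uu S' := by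
  classical
  obtain ⟨s, hs, P, hP⟩ := exists_denom hS hZ
  exact ⟨s.toFinset, fun p hp => hs p (Multiset.mem_toFinset.1 hp),
    mem_of_denom (S := (s.toFinset : Set (ℤ × ℤ)))
      (fun p hp => hS p (hs p (Multiset.mem_toFinset.1 hp)))
      (fun p hp => Multiset.mem_toFinset.2 hp) hP⟩

theorem slope_eq {p q : ℤ × ℤ} (hp : 0 < p.2) (hq : 0 < q.2) :
    p.1 * q.2 = q.1 * p.2 ↔ ((p.1 : ℚ) / p.2) = (q.1 : ℚ) / q.2 := by
  have h1 : (p.2 : ℚ) ≠ 0 := by exact_mod_cast hp.ne'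
  have h2 : (q.2 : ℚ) ≠ 0 := by exact_mod_cast hq.ne'
  rw [div_eq_div_iff h1 h2]
  constructor
  · intro h
    exact_mod_cast h
  · intro h
    exact_mod_cast h

variable (uu) in
/-- `s` is a pole of `Z`: `Z` is not in the ring generated by `T` and the `1 / (1 - uu ^ a T ^ b)`, `b > 0`,
`a / b ≠ s` -/
def PoleR (Z : PowerSeries R) (s : ℚ) : Prop :=
  ¬ InRat uu {p | 0 < p.2 ∧ ((p.1 : ℚ) / p.2) ≠ s} Z

/-- **The poles and the denominators.** If `Z` is rational and all its poles satisfy `G`, then the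
slopes of the denominators can be chosen to satisfy `G`, with the exception of the slope `-1`. -/
theorem ring_of_poles (G : ℚ → Prop) {Z : PowerSeries R} {S : Set (ℤ × ℤ)}
    (hS : ∀ p ∈ S, 0 < p.2) (hZ : Z ∈ rr uu S) (h : ∀ s, PoleR uu Z s → G s) :
    ∃ S' : Finset (ℤ × ℤ), (∀ p ∈ S', 0 < p.2 ∧ (G ((p.1 : ℚ) / p.2) ∨ p.1 = -p.2)) ∧
      Z ∈ rr uu S' := by
  classical
  obtain ⟨S0, hS0, hZ0⟩ := exists_finset hS hZ
  have key : ∀ (n : ℕ) (S1 : Finset (ℤ × ℤ)), (∀ p ∈ S1, 0 < p.2) → Z ∈ rr uu S1 →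
      ((S1.image fun p : ℤ × ℤ => ((p.1 : ℚ) / p.2)).filter fun x => ¬ G x ∧ x ≠ -1).card ≤ n →
      ∃ S' : Finset (ℤ × ℤ), (∀ p ∈ S', 0 < p.2 ∧ (G ((p.1 : ℚ) / p.2) ∨ p.1 = -p.2)) ∧
        Z ∈ rr uu S' := by
    intro n
    induction n with
    | zero =>
      intro S1 h1 h2 h3
      refine ⟨S1, fun p hp => ⟨h1 p hp, ?_⟩, h2⟩
      by_contra hne
      rw [not_or] at hne
      have h4 := Finset.card_eq_zero.1 (Nat.le_zero.1 h3)
      have h5 : ((p.1 : ℚ) / p.2) ∈ (S1.image fun p : ℤ × ℤ => ((p.1 : ℚ) / p.2)).filter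
          fun x => ¬ G x ∧ x ≠ -1 := by
        rw [Finset.mem_filter]
        refine ⟨Finset.mem_image_of_mem _ hp, hne.1, fun h6 => hne.2 ?_⟩
        have h7 : (p.2 : ℚ) ≠ 0 := by exact_mod_cast (h1 p hp).ne'
        rw [div_eq_iff h7] at h6
        have h8 : (p.1 : ℚ) = -p.2 := by rw [h6]; ring
        exact_mod_cast h8
      rw [h4] at h5
      exact absurd h5 (Finset.notMem_empty _)
    | succ n ih =>
      intro S1 h1 h2 h3
      by_cases hb : ((S1.image fun p : ℤ × ℤ => ((p.1 : ℚ) / p.2)).filter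
          fun x => ¬ G x ∧ x ≠ -1).Nonempty
      · obtain ⟨s, hs⟩ := hb
        have hs' := (Finset.mem_filter.1 hs).2
        have h4 : Z ∈ rr uu {p | 0 < p.2 ∧ ((p.1 : ℚ) / p.2) ≠ s} := by
          by_contra h5
          exact hs'.1 (h s h5)
        obtain ⟨D, hD, h5⟩ := rr_inter (S := (S1 : Set (ℤ × ℤ))) h1 (fun p hp => hp.1) h2 h4
        refine ih (insert (-(D : ℤ), (D : ℤ)) (S1.filter fun p =>
          ((p.1 : ℚ) / p.2) ≠ s)) ?_ (rr_mono ?_ h5) ?_
        · intro p hp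
          rcases Finset.mem_insert.1 hp with rfl | hp
          · exact Int.natCast_pos.2 hD
          · exact h1 p (Finset.mem_filter.1 hp).1
        · rintro p (rfl | ⟨hp, q, hq, hpq⟩)
          · exact Finset.mem_coe.2 (Finset.mem_insert_self _ _)
          · refine Finset.mem_coe.2 (Finset.mem_insert_of_mem (Finset.mem_filter.2 ⟨hp, ?_⟩))
            rw [(slope_eq (h1 p hp) hq.1).1 hpq]
            exact hq.2
        · have h6 : ((insert (-(D : ℤ), (D : ℤ)) (S1.filter fun p : ℤ × ℤ =>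
              ((p.1 : ℚ) / p.2) ≠ s)).image fun p : ℤ × ℤ => ((p.1 : ℚ) / p.2)).filter
              (fun x => ¬ G x ∧ x ≠ -1) ⊆
              ((S1.image fun p : ℤ × ℤ => ((p.1 : ℚ) / p.2)).filter
              fun x => ¬ G x ∧ x ≠ -1).erase s := by
            intro x hx
            rw [Finset.mem_filter, Finset.mem_image] at hx
            obtain ⟨⟨p, hp, rfl⟩, hx2, hx3⟩ := hx
            rcases Finset.mem_insert.1 hp with rfl | hp
            · exfalso
              apply hx3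
              have h7 : (D : ℚ) ≠ 0 := by exact_mod_cast hD.ne'
              push_cast
              field_simp
            · rw [Finset.mem_filter] at hp
              rw [Finset.mem_erase, Finset.mem_filter]
              exact ⟨hp.2, Finset.mem_image_of_mem _ hp.1, hx2, hx3⟩
          have h7 := Finset.card_le_card h6
          rw [Finset.card_erase_of_mem hs] at h7
          omega
      · rw [Finset.not_nonempty_iff_eq_empty] at hb
        refine ih S1 h1 h2 ?_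
        rw [hb, Finset.card_empty]
        exact Nat.zero_le n
  exact key _ S0 (fun p hp => hS p (hS0 p hp)) hZ0 le_rfl


/-! ### Rescaling -/

theorem rescale_geo (a b : ℤ) (hb : 0 < b) :
    PowerSeries.rescale ((uu : Rˣ) : R) (geoR uu a b) = geoR uu (a + b) b := by
  have h1 := congrArg (PowerSeries.rescale ((uu : Rˣ) : R)) (geo_mul (uu := uu) a b hb)
  have h2 := geo_mul (uu := uu) (a + b) b hb
  have h3 : PowerSeries.C ((uu ^ a : Rˣ) : R) *
      (PowerSeries.C ((uu : Rˣ) : R) * PowerSeries.X) ^ b.toNat =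
      PowerSeries.C ((uu ^ (a + b) : Rˣ) : R) * PowerSeries.X ^ b.toNat := by
    have h4 : ((uu ^ (a + b) : Rˣ) : R) =
        ((uu ^ a : Rˣ) : R) * ((uu : Rˣ) : R) ^ b.toNat := by
      rw [← Units.val_pow_eq_pow_val, ← Units.val_mul, ← zpow_natCast, ← zpow_add,
        Int.toNat_of_nonneg hb.le]
    rw [h4, mul_pow, map_mul, map_pow]
    ring
  rw [map_mul, map_one, map_sub, map_one, map_mul, rescale_C', map_pow, rescale_X', h3] at h1
  calc PowerSeries.rescale ((uu : Rˣ) : R) (geoR uu a b)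
      = ((1 - PowerSeries.C ((uu ^ (a + b) : Rˣ) : R) * PowerSeries.X ^ b.toNat) *
          geoR uu (a + b) b) * PowerSeries.rescale ((uu : Rˣ) : R) (geoR uu a b) := by
        rw [h2, one_mul]
    _ = geoR uu (a + b) b *
        ((1 - PowerSeries.C ((uu ^ (a + b) : Rˣ) : R) * PowerSeries.X ^ b.toNat) *
          PowerSeries.rescale ((uu : Rˣ) : R) (geoR uu a b)) := by ring
    _ = geoR uu (a + b) b := by rw [h1, mul_one]

theorem rescale_mem {S : Set (ℤ × ℤ)} (hS : ∀ p ∈ S, 0 < p.2) {z : PowerSeries R}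
    (hz : z ∈ rr uu S) :
    PowerSeries.rescale ((uu : Rˣ) : R) z ∈ rr uu (shn 1 S) := by
  unfold rr at hz
  refine Algebra.adjoin_induction (p := fun z _ =>
    PowerSeries.rescale ((uu : Rˣ) : R) z ∈ rr uu (shn 1 S)) ?_ ?_ ?_ ?_ hz
  · rintro x (hx | ⟨p, hp, rfl⟩)
    · rw [Set.mem_singleton_iff] at hx
      rw [hx, rescale_X']
      exact (rr uu _).mul_mem (C_mem _ _) (X_mem _)
    · rw [rescale_geo _ _ (hS p hp)]
      refine geo_mem (p := (p.1 + p.2, p.2)) ⟨p, hp, ?_⟩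
      push_cast
      rw [one_mul]
  · intro r
    rw [PowerSeries.algebraMap_apply, Algebra.algebraMap_self, RingHom.id_apply, rescale_C']
    exact C_mem _ _
  · intro x y _ _ hx hy
    rw [map_add]
    exact (rr uu _).add_mem hx hy
  · intro x y _ _ hx hy
    rw [map_mul]
    exact (rr uu _).mul_mem hx hy


/-! ### Descent -/

/-- the recursion with the characteristic roots `𝕃` and `𝕃 ^ 2` -/
def RecR (uu : Rˣ) (Q : ℕ → PowerSeries R) : Prop := ∀ j,
  PowerSeries.rescale ((uu : Rˣ) : R)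
      (PowerSeries.rescale ((uu : Rˣ) : R) (Q (j + 2))) =
    (PowerSeries.C ((uu : Rˣ) : R) + PowerSeries.C ((uu : Rˣ) : R) ^ 2) *
      PowerSeries.rescale ((uu : Rˣ) : R) (Q (j + 1)) -
    PowerSeries.C ((uu : Rˣ) : R) ^ 3 * Q j

theorem step {Q : ℕ → PowerSeries R} (hQ : RecR uu Q) (j : ℕ) {S1 S2 : Set (ℤ × ℤ)}
    (hS1 : ∀ p ∈ S1, 0 < p.2) (hS2 : ∀ p ∈ S2, 0 < p.2) (h1 : Q (j + 1) ∈ rr uu S1)
    (h2 : Q (j + 2) ∈ rr uu S2) : Q j ∈ rr uu (shn 1 S1 ∪ shn 1 (shn 1 S2)) := by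
  have h3 := hQ j
  set L : R := ((uu : Rˣ) : R) with hL
  set Y : R := ((uu⁻¹ : Rˣ) : R) with hY
  have hLY : PowerSeries.C L * PowerSeries.C Y = (1 : PowerSeries R) := by
    rw [← map_mul, hL, hY, Units.mul_inv, map_one]
  have h4 : Q j = PowerSeries.C Y ^ 3 * ((PowerSeries.C L + PowerSeries.C L ^ 2) *
      PowerSeries.rescale L (Q (j + 1)) - PowerSeries.rescale L (PowerSeries.rescale L
        (Q (j + 2)))) := by
    rw [h3]
    have h5 : (PowerSeries.C L * PowerSeries.C Y) ^ 3 = (1 : PowerSeries R) := by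
      rw [hLY, one_pow]
    linear_combination (-Q j) * h5
  rw [h4]
  have m1 : PowerSeries.rescale L (Q (j + 1)) ∈ rr uu (shn 1 S1 ∪ shn 1 (shn 1 S2)) :=
    rr_mono Set.subset_union_left (rescale_mem hS1 h1)
  have m2 : PowerSeries.rescale L (PowerSeries.rescale L (Q (j + 2))) ∈
      rr uu (shn 1 S1 ∪ shn 1 (shn 1 S2)) :=
    rr_mono Set.subset_union_right (rescale_mem (shn_pos hS2) (rescale_mem hS2 h2))
  exact (rr uu _).mul_mem ((rr uu _).pow_mem (C_mem _ _) 3) ((rr uu _).sub_mem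
    ((rr uu _).mul_mem ((rr uu _).add_mem (C_mem _ _) ((rr uu _).pow_mem (C_mem _ _) 2))
      m1) m2)

/-- **Descent.** -/
theorem descend {Q : ℕ → PowerSeries R} (hQ : RecR uu Q) :
    ∀ (κ : ℕ) (S1 S2 : Set (ℤ × ℤ)), (∀ p ∈ S1, 0 < p.2) → (∀ p ∈ S2, 0 < p.2) →
      Q κ ∈ rr uu S1 → Q (κ + 1) ∈ rr uu S2 →
      Q 0 ∈ rr uu (shn κ S1 ∪ shn (κ + 1) S2) := by
  intro κ
  induction κ with
  | zero =>
    intro S1 S2 _ _ hz1 _
    refine rr_mono ?_ hz1
    intro p hp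
    refine Or.inl ⟨p, hp, ?_⟩
    simp
  | succ κ ih =>
    intro S1 S2 hS1 hS2 hz1 hz2
    have h3 := step hQ κ hS1 hS2 hz1 hz2
    have h4 := ih (shn 1 S1 ∪ shn 1 (shn 1 S2)) S1 ?_ hS1 h3 hz1
    · rw [shn_union, shn_shn, shn_shn, shn_shn] at h4
      refine rr_mono ?_ h4
      rintro p ((hp | hp) | hp)
      · exact Or.inl hp
      · right
        rw [show κ + (1 + 1) = κ + 1 + 1 by ring] at hp
        exact hp
      · exact Or.inl hp
    · rintro p (hp | hp)
      · exact shn_pos hS1 p hp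
      · exact shn_pos (shn_pos hS2) p hp


/-! ### Four members -/

variable (uu) in
/-- the factor of the strict transform -/
noncomputable def fstR : PowerSeries R :=
  1 - PowerSeries.C ((uu⁻¹ : Rˣ) : R) * PowerSeries.X

theorem of_fst {Z : PowerSeries R} {S : Set (ℤ × ℤ)} (h : fstR uu * Z ∈ rr uu S) :
    Z ∈ rr uu (insert (-1, 1) S) := by
  have h1 := geo_mul (uu := uu) (-1) 1 one_pos
  rw [show (1 : ℤ).toNat = 1 from rfl, zpow_neg_one, pow_one] at h1
  have h2 : geoR uu (-1) 1 * (fstR uu * Z) = Z := by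
    unfold fstR
    calc _ = ((1 - PowerSeries.C ((uu⁻¹ : Rˣ) : R) * PowerSeries.X) * geoR uu (-1) 1) *
        Z := by ring
      _ = _ := by rw [h1, one_mul]
  rw [← h2]
  exact (rr uu _).mul_mem (geo_mem (p := ((-1 : ℤ), (1 : ℤ))) (Set.mem_insert _ _))
    (rr_mono (Set.subset_insert _ _) h)

/-- the shifted slope -/
theorem shift_div {κ : ℕ} {q : ℤ × ℤ} (hq : 0 < q.2) :
    ((q.1 + κ * q.2 : ℤ) : ℂ) / (q.2 : ℤ) = (q.1 : ℂ) / q.2 + κ := by
  have hq0 : (q.2 : ℂ) ≠ 0 := by exact_mod_cast hq.ne'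
  push_cast
  field_simp

/-- the slopes after the descent -/
theorem shift_root {κ : ℕ} {c : Polynomial ℂ} {q : ℤ × ℤ} (hq : 0 < q.2)
    (h : ((Polynomial.X + 1) * c.comp (Polynomial.X + Polynomial.C (κ : ℂ))).eval
      ((q.1 : ℂ) / q.2) = 0) :
    c.eval (((q.1 + κ * q.2 : ℤ) : ℂ) / (q.2 : ℤ)) = 0 ∨
      ((q.1 + κ * q.2 : ℤ) : ℂ) / (q.2 : ℤ) = (κ : ℂ) - 1 := by
  rw [shift_div hq]
  rw [Polynomial.eval_mul, Polynomial.eval_comp, mul_eq_zero, Polynomial.eval_add,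
    Polynomial.eval_X, Polynomial.eval_one, Polynomial.eval_add, Polynomial.eval_X,
    Polynomial.eval_C] at h
  rcases h with h | h
  · right
    linear_combination h
  · left
    exact h

/-- **The strong form from four members of the sequence.** -/
theorem strong_core {Q : ℕ → PowerSeries R} (hQ : RecR uu Q) (κ : ℕ) (c : Polynomial ℂ)
    (h : ∀ j < 4, ∃ S : Finset (ℤ × ℤ), (∀ p ∈ S, 0 < p.2 ∧
      ((Polynomial.X + 1) * c.comp (Polynomial.X + Polynomial.C ((κ + j : ℕ) : ℂ))).eval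
        ((p.1 : ℂ) / p.2) = 0) ∧ Q (κ + j) ∈ rr uu S) :
    ∃ S : Finset (ℤ × ℤ), (∀ p ∈ S, 0 < p.2 ∧ ((Polynomial.X + 1) * c).eval
      ((p.1 : ℂ) / p.2) = 0) ∧ Q 0 ∈ rr uu S := by
  classical
  obtain ⟨S0, hS0, z0⟩ := h 0 (by norm_num)
  obtain ⟨S1, hS1, z1⟩ := h 1 (by norm_num)
  obtain ⟨S2, hS2, z2⟩ := h 2 (by norm_num)
  obtain ⟨S3, hS3, z3⟩ := h 3 (by norm_num)
  have d0 := descend hQ κ _ _ (fun p hp => (hS0 p hp).1) (fun p hp => (hS1 p hp).1) z0 z1
  have d2 := descend hQ (κ + 2) _ _ (fun p hp => (hS2 p hp).1) (fun p hp => (hS3 p hp).1) z2 z3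
  have pos0 : ∀ p ∈ shn κ (S0 : Set (ℤ × ℤ)) ∪ shn (κ + 1) (S1 : Set (ℤ × ℤ)), 0 < p.2 := by
    rintro p (hp | hp)
    · exact shn_pos (fun q hq => (hS0 q hq).1) p hp
    · exact shn_pos (fun q hq => (hS1 q hq).1) p hp
  have pos2 : ∀ p ∈ shn (κ + 2) (S2 : Set (ℤ × ℤ)) ∪ shn (κ + 2 + 1) (S3 : Set (ℤ × ℤ)),
      0 < p.2 := by
    rintro p (hp | hp)
    · exact shn_pos (fun q hq => (hS2 q hq).1) p hp
    · exact shn_pos (fun q hq => (hS3 q hq).1) p hp
  have r0 : ∀ p ∈ shn κ (S0 : Set (ℤ × ℤ)) ∪ shn (κ + 1) (S1 : Set (ℤ × ℤ)),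
      c.eval ((p.1 : ℂ) / p.2) = 0 ∨ (p.1 : ℂ) / p.2 = (κ : ℂ) - 1 ∨ (p.1 : ℂ) / p.2 = κ := by
    rintro p (⟨q, hq, rfl⟩ | ⟨q, hq, rfl⟩)
    · rcases shift_root (hS0 q hq).1 (hS0 q hq).2 with h1 | h1
      · exact Or.inl h1
      · exact Or.inr (Or.inl h1)
    · rcases shift_root (hS1 q hq).1 (hS1 q hq).2 with h1 | h1
      · exact Or.inl h1
      · refine Or.inr (Or.inr (h1.trans ?_))
        push_cast
        ring
  have r2 : ∀ p ∈ shn (κ + 2) (S2 : Set (ℤ × ℤ)) ∪ shn (κ + 2 + 1) (S3 : Set (ℤ × ℤ)),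
      c.eval ((p.1 : ℂ) / p.2) = 0 ∨ (p.1 : ℂ) / p.2 = (κ : ℂ) + 1 ∨
        (p.1 : ℂ) / p.2 = κ + 2 := by
    rintro p (⟨q, hq, rfl⟩ | ⟨q, hq, rfl⟩)
    · rcases shift_root (hS2 q hq).1 (hS2 q hq).2 with h1 | h1
      · exact Or.inl h1
      · refine Or.inr (Or.inl (h1.trans ?_))
        push_cast
        ring
    · rcases shift_root (hS3 q hq).1 (hS3 q hq).2 with h1 | h1
      · exact Or.inl h1
      · refine Or.inr (Or.inr (h1.trans ?_))
        push_cast
        ring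
  obtain ⟨D, hD, hz⟩ := rr_inter pos0 pos2 d0 d2
  have posI : ∀ p ∈ insert (-(D : ℤ), (D : ℤ)) {p ∈ shn κ (S0 : Set (ℤ × ℤ)) ∪
      shn (κ + 1) (S1 : Set (ℤ × ℤ)) | ∃ q ∈ shn (κ + 2) (S2 : Set (ℤ × ℤ)) ∪
        shn (κ + 2 + 1) (S3 : Set (ℤ × ℤ)), p.1 * q.2 = q.1 * p.2}, 0 < p.2 := by
    rintro p (rfl | ⟨hp, -⟩)
    · exact Int.natCast_pos.2 hD
    · exact pos0 p hp
  obtain ⟨S, hS, hzS⟩ := exists_finset posI hz
  refine ⟨S, fun p hp => ⟨posI p (hS p hp), ?_⟩, hzS⟩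
  rw [Polynomial.eval_mul, mul_eq_zero]
  rcases hS p hp with rfl | ⟨hp1, q, hq, hpq⟩
  · left
    have h7 : (D : ℂ) ≠ 0 := by exact_mod_cast hD.ne'
    rw [Polynomial.eval_add, Polynomial.eval_X, Polynomial.eval_one]
    push_cast
    field_simp
    ring
  · right
    have hpp := pos0 p hp1
    have hqq := pos2 q hq
    have he : (p.1 : ℂ) / p.2 = (q.1 : ℂ) / q.2 := by
      have h1 : (p.2 : ℂ) ≠ 0 := by exact_mod_cast hpp.ne'
      have h2 : (q.2 : ℂ) ≠ 0 := by exact_mod_cast hqq.ne'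
      rw [div_eq_div_iff h1 h2]
      exact_mod_cast hpq
    rcases r0 p hp1 with h1 | h1
    · exact h1
    · rcases r2 q hq with h2 | h2
      · rw [he]
        exact h2
      · exfalso
        rw [he] at h1
        have h3 : (κ : ℂ) - 1 = κ + 1 ∨ (κ : ℂ) - 1 = κ + 2 ∨ (κ : ℂ) = κ + 1 ∨
            (κ : ℂ) = κ + 2 := by
          rcases h1 with h1 | h1 <;> rcases h2 with h2 | h2
          · exact Or.inl (h1.symm.trans h2)
          · exact Or.inr (Or.inl (h1.symm.trans h2))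
          · exact Or.inr (Or.inr (Or.inl (h1.symm.trans h2)))
          · exact Or.inr (Or.inr (Or.inr (h1.symm.trans h2)))
        rcases h3 with h3 | h3 | h3 | h3
        · have h4 : (2 : ℂ) = 0 := by linear_combination -h3
          norm_num at h4
        · have h4 : (3 : ℂ) = 0 := by linear_combination -h3
          norm_num at h4
        · have h4 : (1 : ℂ) = 0 := by linear_combination -h3
          norm_num at h4
        · have h4 : (2 : ℂ) = 0 := by linear_combination -h3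
          norm_num at h4


/-! ### The recursion -/

theorem rescale_geoR (L Y : R) (hLY : L * Y = 1) :
    PowerSeries.rescale L (geoS Y) = geoS (1 : R) := by
  ext d
  rw [PowerSeries.coeff_rescale, geoS, geoS, PowerSeries.coeff_mk, PowerSeries.coeff_mk, one_pow,
    ← mul_pow, hLY, one_pow]

/-- the step for `f + y z` -/
def StepR (uu : Rˣ) (e : R) (Z Z' U : PowerSeries R) : Prop :=
  Z' = PowerSeries.C ((uu : Rˣ) : R) * PowerSeries.rescale ((uu⁻¹ : Rˣ) : R) Z +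
    PowerSeries.C ((((uu : Rˣ) : R) - 1) * e) *
      (geoS ((uu⁻¹ : Rˣ) : R) * geoS ((uu⁻¹ : Rˣ) : R) *
        (PowerSeries.C ((uu⁻¹ : Rˣ) : R) * PowerSeries.X *
          (PowerSeries.C ((uu⁻¹ : Rˣ) : R) * PowerSeries.X -
            PowerSeries.rescale ((uu⁻¹ : Rˣ) : R) U)))

/-- **The recursion.** -/
theorem rec_of {Z U : ℕ → PowerSeries R} (hZ : ∀ j, StepR uu 1 (Z j) (Z (j + 1)) (U j))
    (hU : ∀ j, StepR uu (((uu : Rˣ) : R) - 1) (U j) (U (j + 1)) (U j)) :
    RecR uu fun j => fstR uu * Z j := by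
  intro j
  have e1 := hZ j
  have e2 := hZ (j + 1)
  have e3 := hU j
  unfold StepR at e1 e2 e3
  set L : R := ((uu : Rˣ) : R) with hL
  set Y : R := ((uu⁻¹ : Rˣ) : R) with hY
  have hLY : L * Y = 1 := by rw [hL, hY, Units.mul_inv]
  have hRR : ∀ Z : PowerSeries R, PowerSeries.rescale L (PowerSeries.rescale Y Z) = Z := by
    intro Z
    rw [PowerSeries.rescale_rescale, mul_comm, hLY, PowerSeries.rescale_one, RingHom.id_apply]
  have hly : PowerSeries.C L * PowerSeries.C Y = (1 : PowerSeries R) := by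
    rw [← map_mul, hLY, map_one]
  have hg0 := geoS_mul (1 : R)
  set g : PowerSeries R := geoS 1 with hg
  have hg1 : (1 - PowerSeries.X) * g = 1 := by
    rw [map_one, one_mul] at hg0
    exact hg0
  have hh1 := congrArg (PowerSeries.rescale L) hg1
  rw [map_mul, map_sub, map_one, rescale_X'] at hh1
  set h : PowerSeries R := PowerSeries.rescale L g with hh
  set Z0 := Z j with hZ0
  set Z1 := Z (j + 1) with hZ1
  have i2 : Z (j + 1 + 1) = Z (j + 2) := rfl
  rw [i2] at e2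
  set Z2 := Z (j + 2) with hZ2
  set U0 := U j with hU0
  set U1 := U (j + 1) with hU1
  have hxy : PowerSeries.C Y * (PowerSeries.C L * PowerSeries.X) =
      (PowerSeries.X : PowerSeries R) := by
    rw [← mul_assoc, mul_comm (PowerSeries.C Y), hly, one_mul]
  have resc : ∀ (Z Z' U : PowerSeries R) (c : R),
      Z' = PowerSeries.C L * PowerSeries.rescale Y Z + PowerSeries.C c * (geoS Y * geoS Y *
        (PowerSeries.C Y * PowerSeries.X * (PowerSeries.C Y * PowerSeries.X -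
          PowerSeries.rescale Y U))) →
      PowerSeries.rescale L Z' = PowerSeries.C L * Z + PowerSeries.C c * (g * g *
        (PowerSeries.X * (PowerSeries.X - U))) := by
    intro Z Z' U c hZ
    rw [hZ]
    simp only [map_add, map_mul, map_sub, rescale_C', rescale_X', rescale_geoR L Y hLY, hRR, hxy]
    rfl
  have f1 := resc _ _ _ _ e1
  have f2 := resc _ _ _ _ e2
  have f3 := resc _ _ _ _ e3
  have hrat := rat_identity (PowerSeries.C L) PowerSeries.X g h hg1 hh1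
  have f4 : PowerSeries.rescale L (PowerSeries.rescale L Z2) = PowerSeries.C L *
      (PowerSeries.C L * Z0 + PowerSeries.C ((L - 1) * 1) * (g * g *
        (PowerSeries.X * (PowerSeries.X - U0)))) + PowerSeries.C ((L - 1) * 1) * (h * h *
        (PowerSeries.C L * PowerSeries.X * (PowerSeries.C L * PowerSeries.X -
          (PowerSeries.C L * U0 + PowerSeries.C ((L - 1) * (L - 1)) * (g * g *
        (PowerSeries.X * (PowerSeries.X - U0))))))) := by
    generalize PowerSeries.C ((L - 1) * (L - 1)) = d2 at f3 ⊢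
    have e5 : PowerSeries.rescale L (PowerSeries.C ((L - 1) * 1)) =
        PowerSeries.C ((L - 1) * 1) := rescale_C' _ _
    generalize PowerSeries.C ((L - 1) * 1) = d1 at f1 f2 e5 ⊢
    simp only [f2, map_add, map_mul, map_sub, rescale_C', rescale_X', f1, f3, e5]
    rfl
  have hfst1 : PowerSeries.rescale L (fstR uu) = 1 - PowerSeries.X := by
    unfold fstR
    rw [map_sub, map_one, map_mul, rescale_C', rescale_X', ← hY, hxy]
  show PowerSeries.rescale L (PowerSeries.rescale L (fstR uu * Z2)) =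
    (PowerSeries.C L + PowerSeries.C L ^ 2) * PowerSeries.rescale L (fstR uu * Z1) -
      PowerSeries.C L ^ 3 * (fstR uu * Z0)
  rw [map_mul, map_mul, map_mul, hfst1, map_sub, map_one, rescale_X', f4, f1]
  unfold fstR
  rw [← hY]
  generalize PowerSeries.C ((L - 1) * 1) = e
  rw [map_mul (PowerSeries.C) (L - 1) (L - 1), map_sub, map_one]
  generalize PowerSeries.C L = l at *
  generalize PowerSeries.C Y = y at *
  generalize (PowerSeries.X : PowerSeries R) = x at *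
  linear_combination (e * x * (x - U0)) * hrat +
    (e * x * (x - U0) * l * (l - (l - 1) ^ 2 * x * g ^ 2) * h) * hh1 -
    (e * x * (x - U0) * (l + l ^ 2) * g) * hg1 - (l ^ 2 * x * Z0) * hly

end Pool.Agent.Q223.TE
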