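import Pool.Agent.Q223.TE.Pair
import Pool.Agent.Q223.TW.LocK
import Pool.Agent.Q49.CO.Hyp

/-!
# Classes of jets of `f + y z` with origin in `y = z = 0`, with the action of `μ_N`
-/

set_option autoImplicit false
set_option linter.unusedSectionVars false
set_option linter.unusedVariables false

namespace Pool.Agent.Q223.TE

open MvPolynomial Pool.Agent.TH192.MT Pool.Agent.Q223.ID
open Pool.Agent.W428.MOT hiding wt
open Pool.Agent.W358.ME.EK0 (valid_prod valid_union)
open Pool.Agent.Q223.TW (ser Vc PSL constr_PSL)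
open Pool.Agent.Q223.TW.LK (cw isPF_cw JetE TJ SE constr_SE constr_TJ constr_JetS constr_JetE Vc_topE
  aeval_yz)
open Pool.Agent.Q57.QE (wt ar_dact aeval_rescale' gm_trivial valid_zero)
open Pool.Agent.Y229.MS (addyz CE ce_good)
open Pool.Agent.Q49.CO (ce_one ce_ne)

variable {k : Type} [Field k] {n : ℕ} {f : MvPolynomial (Fin n) k} {R : Type} [CommRing R]

/-- weights with a parameter -/
def wtU (m N : ℕ) : Unit ⊕ Fin m × Fin (N + 1) → ℤ := Sum.elim (fun _ => 0) (wt m N)

/-- the base coordinates -/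
def bs {m : ℕ} (e : Fin n → Fin m) (N : ℕ) : Fin n → Option (Fin m × Fin (N + 1)) :=
  fun i => some (e i, 0)

/-- the base coordinates, with a parameter -/
def bsU {m : ℕ} (e : Fin n → Fin m) (N : ℕ) : Fin n → Option (Unit ⊕ Fin m × Fin (N + 1)) :=
  fun i => some (Sum.inr (e i, 0))

/-- the origins with `y = z = 0` -/
def yz0 {m : ℕ} (W : Set (Pt k (Fin m))) : Set (Pt k (Fin (m + 2))) :=
  {w | (fun i => w (Fin.castAdd 2 i)) ∈ W ∧ w (Fin.natAdd m 0) = 0 ∧ w (Fin.natAdd m 1) = 0}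

variable (f) in
/-- a set of origins over `X_s` -/
structure PD {m : ℕ} (W : Set (Pt k (Fin m))) (e : Fin n → Fin m) : Prop where
  constr : Constr W
  base : ∀ w ∈ W, aeval (fun i => w (e i)) f = 0

theorem PD.yz0 {m : ℕ} {W : Set (Pt k (Fin m))} {e : Fin n → Fin m} (h : PD f W e) :
    PD f (yz0 W) (fun i => Fin.castAdd 2 (e i)) where
  constr := Constr.and (h.constr.preimage (fun w : Pt k (Fin (m + 2)) =>
    fun i => w (Fin.castAdd 2 i)) fun i => IsPF.coord _)
    (Constr.and (Constr.eqz (IsPF.coord _)) (Constr.eqz (IsPF.coord _)))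
  base := fun w hw => h.base _ hw.1

section act

variable {m N : ℕ}

theorem ar_dact' (l : AlgebraicClosure k) (z : Pt k (Fin m × Fin (N + 1))) :
    ar (dact (wt m N) l z) = fun i => PowerSeries.rescale l (ar z i) :=
  funext fun i => ar_dact l z i

theorem coeff_dact (g : MvPolynomial (Fin m) k) (l : AlgebraicClosure k)
    (z : Pt k (Fin m × Fin (N + 1))) (j : ℕ) :
    PowerSeries.coeff j (aeval (ar (dact (wt m N) l z)) g) =
      l ^ j * PowerSeries.coeff j (aeval (ar z) g) := by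
  rw [ar_dact', aeval_rescale', PowerSeries.coeff_rescale]

theorem origin_dact (l : AlgebraicClosure k) (z : Pt k (Fin m × Fin (N + 1))) (i : Fin m) :
    dact (wt m N) l z (i, 0) = z (i, 0) := by
  simp [dact, wt]

theorem stab_TJ {g : MvPolynomial (Fin m) k} {W : Set (Pt k (Fin m))} {i : ℕ}
    (l : AlgebraicClosure k) {z : Pt k (Fin m × Fin (N + 1))} (hz : z ∈ TJ g W i N) :
    dact (wt m N) l z ∈ TJ g W i N := by
  refine ⟨?_, fun j hj => ?_⟩
  · have e2 : (fun i => dact (wt m N) l z (i, 0)) = fun i => z (i, 0) :=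
      funext fun i => origin_dact l z i
    rw [e2]
    exact hz.1
  · rw [coeff_dact, hz.2 j hj, mul_zero]

theorem stab_A {g : MvPolynomial (Fin m) k} {W : Set (Pt k (Fin m))}
    {l : AlgebraicClosure k} (hl : l ≠ 0) {z : Pt k (Fin m × Fin (N + 1))}
    (hz : z ∈ JetS g W {c | c ≠ 0} N) : dact (wt m N) l z ∈ JetS g W {c | c ≠ 0} N := by
  refine ⟨?_, fun j hj => ?_, ?_⟩
  · have e2 : (fun i => dact (wt m N) l z (i, 0)) = fun i => z (i, 0) :=
      funext fun i => origin_dact l z i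
    rw [e2]
    exact hz.1
  · rw [coeff_dact, hz.2.1 j hj, mul_zero]
  · show PowerSeries.coeff N (aeval (ar (dact (wt m N) l z)) g) ≠ 0
    rw [coeff_dact]
    exact mul_ne_zero (pow_ne_zero _ hl) hz.2.2

theorem valid_TJ {W : Set (Pt k (Fin m))} {e : Fin n → Fin m} (h : PD f W e)
    (g : MvPolynomial (Fin m) k) (i : ℕ) {d : ℕ} (hd : 0 < d) :
    Valid f (TJ g W i N) (wt m N) d (bs e N) where
  constr := constr_TJ h.constr g i N
  pos := hd
  stable := fun l _ z hz => stab_TJ l hz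
  base := fun z hz => h.base _ hz.1
  inv := fun i j hij => by
    obtain rfl : (e i, (0 : Fin (N + 1))) = j := Option.some.inj hij
    rfl

theorem valid_A {W : Set (Pt k (Fin m))} {e : Fin n → Fin m} (h : PD f W e)
    (g : MvPolynomial (Fin m) k) {d : ℕ} (hd : 0 < d) :
    Valid f (JetS g W {c | c ≠ 0} N) (wt m N) d (bs e N) where
  constr := constr_JetS h.constr ce_ne g N
  pos := hd
  stable := fun l hl z hz => stab_A (ne_zero_of_pow' hd hl) hz
  base := fun z hz => h.base _ hz.1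
  inv := fun i j hij => by
    obtain rfl : (e i, (0 : Fin (N + 1))) = j := Option.some.inj hij
    rfl

theorem valid_one {W : Set (Pt k (Fin m))} {e : Fin n → Fin m} (h : PD f W e)
    (g : MvPolynomial (Fin m) k) (hN : 0 < N) :
    Valid f (JetS g W {1} N) (wt m N) N (bs e N) where
  constr := constr_JetS h.constr ce_one g N
  pos := hN
  stable := fun l hl z hz => by
    refine ⟨?_, fun j hj => ?_, ?_⟩
    · have e2 : (fun i => dact (wt m N) l z (i, 0)) = fun i => z (i, 0) :=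
        funext fun i => origin_dact l z i
      rw [e2]
      exact hz.1
    · rw [coeff_dact, hz.2.1 j hj, mul_zero]
    · show PowerSeries.coeff N (aeval (ar (dact (wt m N) l z)) g) = 1
      have h1 : PowerSeries.coeff N (aeval (ar z) g) = 1 := hz.2.2
      rw [coeff_dact, hl, h1, one_mul]
  base := fun z hz => h.base _ hz.1
  inv := fun i j hij => by
    obtain rfl : (e i, (0 : Fin (N + 1))) = j := Option.some.inj hij
    rfl

variable (M : EMeas f R)

/-- the class of the jets of order at least `i` -/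
theorem triv_TJ {W : Set (Pt k (Fin m))} {e : Fin n → Fin m} (h : PD f W e)
    (g : MvPolynomial (Fin m) k) (i : ℕ) {d : ℕ} (hd : 0 < d) :
    M.χ _ (TJ g W i N) (wt m N) d (bs e N) = M.χ _ (TJ g W i N) 0 1 (bs e N) :=
  gm_trivial M (valid_TJ h g i hd) (fun s _ z hz => stab_TJ s hz) (valid_zero (valid_TJ h g i hd))

theorem triv_A {W : Set (Pt k (Fin m))} {e : Fin n → Fin m} (h : PD f W e)
    (g : MvPolynomial (Fin m) k) {d : ℕ} (hd : 0 < d) :
    M.χ _ (JetS g W {c | c ≠ 0} N) (wt m N) d (bs e N) =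
      M.χ _ (JetS g W {c | c ≠ 0} N) 0 1 (bs e N) :=
  gm_trivial M (valid_A h g hd) (fun s hs z hz => stab_A hs hz) (valid_zero (valid_A h g hd))

/-! ### The parameter -/

theorem valid_SE {W : Set (Pt k (Fin m))} {e : Fin n → Fin m} (h : PD f W e)
    {E : Set (AlgebraicClosure k)} (hE : CE E) {d : ℕ} (hd : 0 < d) :
    Valid f (SE W E N) (wtU m N) d (bsU e N) where
  constr := constr_SE h.constr hE N
  pos := hd
  stable := fun l hl z hz => by
    refine ⟨?_, ?_⟩
    · show l ^ (0 : ℤ) * z (Sum.inl ()) ∈ E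
      rw [zpow_zero, one_mul]
      exact hz.1
    · have e2 : (fun i => dact (wtU m N) l z (Sum.inr (i, 0))) = fun i => z (Sum.inr (i, 0)) := by
        funext i
        show l ^ (((0 : Fin (N + 1)) : ℕ) : ℤ) * z (Sum.inr (i, 0)) = z (Sum.inr (i, 0))
        simp
      rw [e2]
      exact hz.2
  base := fun z hz => h.base _ hz.2
  inv := fun i j hij => by
    obtain rfl : (Sum.inr (e i, (0 : Fin (N + 1))) : Unit ⊕ Fin m × Fin (N + 1)) = j :=
      Option.some.inj hij
    rfl

theorem hom_cw (W : Set (Pt k (Fin m))) (E : Set (AlgebraicClosure k))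
    (g : MvPolynomial (Fin m) k) : Hom (SE W E N) (wtU m N) N 0 0 (cw g 1 N) := by
  intro l hl z hz j
  rw [add_zero, add_zero, zpow_natCast]
  unfold cw
  have h1 : PowerSeries.coeff j (aeval (ar fun i => dact (wtU m N) l z (Sum.inr i)) g) =
      l ^ j * PowerSeries.coeff j (aeval (ar fun i => z (Sum.inr i)) g) :=
    coeff_dact g l (fun i => z (Sum.inr i)) j
  rw [h1]
  split_ifs with hj
  · have h2 : dact (wtU m N) l z (Sum.inl ()) = z (Sum.inl ()) := by
      show l ^ (0 : ℤ) * z (Sum.inl ()) = z (Sum.inl ())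
      rw [zpow_zero, one_mul]
    rw [h2, hj, hl, one_mul, one_mul]
  · rw [sub_zero, sub_zero]

theorem valid_JetE {W : Set (Pt k (Fin m))} {e : Fin n → Fin m} (h : PD f W e)
    {E : Set (AlgebraicClosure k)} (hE : CE E) (g : MvPolynomial (Fin m) k) (hN : 0 < N) :
    Valid f (JetE g W E 1 N) (wtU m N) N (bsU e N) := by
  have h1 := valid_Vc (valid_SE h hE hN) (isPF_cw g 1 N) (hom_cw W E g) (N + 1)
  rwa [Vc_topE] at h1

/-- the parameter is determined by the jet -/
theorem chi_JetE_one' {W : Set (Pt k (Fin m))} {e : Fin n → Fin m} (h : PD f W e)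
    {E : Set (AlgebraicClosure k)} (hE : CE E) (g : MvPolynomial (Fin m) k) (hN : 0 < N)
    (hV : Valid f (JetS g W E N) (wt m N) N (bs e N)) :
    M.χ _ (JetE g W E 1 N) (wtU m N) N (bsU e N) = M.χ _ (JetS g W E N) (wt m N) N (bs e N) := by
  refine isoD M (valid_JetE h hE g hN) hV (fun z i => z (Sum.inr i))
    (fun y => Sum.elim (fun _ => PowerSeries.coeff N (aeval (ar y) g)) y)
    (regularOn_poly (fun i => IsPF.coord _) _) ?_ ?_ ?_ ?_ ?_ ?_ ?_
  · refine regularOn_poly (fun i => ?_) _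
    rcases i with i | i
    · exact isPF_coeff g N
    · exact IsPF.coord _
  · rintro z ⟨h2, h3, h4, h5⟩
    refine ⟨h3, h4, ?_⟩
    have h6 : PowerSeries.coeff N (aeval (ar fun i => z (Sum.inr i)) g) = z (Sum.inl ()) ^ 1 := h5
    change PowerSeries.coeff N (aeval (ar fun i => z (Sum.inr i)) g) ∈ E
    rw [h6, pow_one]
    exact h2
  · rintro y ⟨h3, h4, h5⟩
    refine ⟨h5, h3, h4, ?_⟩
    change PowerSeries.coeff N (aeval (ar y) g) = PowerSeries.coeff N (aeval (ar y) g) ^ 1
    rw [pow_one]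
  · rintro z ⟨h2, h3, h4, h5⟩
    have h6 : PowerSeries.coeff N (aeval (ar fun i => z (Sum.inr i)) g) = z (Sum.inl ()) ^ 1 := h5
    funext i
    rcases i with i | i
    · change PowerSeries.coeff N (aeval (ar fun i => z (Sum.inr i)) g) = z (Sum.inl i)
      rw [h6, pow_one]
    · rfl
  · intro y _
    rfl
  · intro z _
    rfl
  · intro l _ z _
    rfl

theorem Vc_low (W : Set (Pt k (Fin m))) (E : Set (AlgebraicClosure k))
    (g : MvPolynomial (Fin m) k) {i : ℕ} (hi : i ≤ N) :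
    Vc (SE W E N) (cw g 1 N) i = {z | z (Sum.inl ()) ∈ E ∧ (fun p => z (Sum.inr p)) ∈ TJ g W i N} := by
  ext z
  constructor
  · rintro ⟨h3, h4⟩
    refine ⟨h3.1, h3.2, fun j hj => ?_⟩
    have := h4 j hj
    rw [cw, if_neg (by omega), sub_zero] at this
    exact this
  · rintro ⟨h3, h3', h4⟩
    refine ⟨⟨h3, h3'⟩, fun j hj => ?_⟩
    rw [cw, if_neg (by omega), sub_zero]
    exact h4 j hj

/-- `E = {1}` -/
theorem chi_low_one {W : Set (Pt k (Fin m))} {e : Fin n → Fin m} (h : PD f W e)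
    (g : MvPolynomial (Fin m) k) (hN : 0 < N) {i : ℕ} (hi : i ≤ N) :
    M.χ _ (Vc (SE W {1} N) (cw g 1 N) i) (wtU m N) N (bsU e N) =
      M.χ _ (TJ g W i N) 0 1 (bs e N) := by
  rw [← triv_TJ M h g i hN]
  have hV := valid_Vc (valid_SE h ce_one hN) (isPF_cw g 1 N) (hom_cw W {1} g) i
  rw [Vc_low W {1} g hi] at hV ⊢
  refine isoD M hV (valid_TJ h g i hN) (fun z p => z (Sum.inr p)) (fun y => Sum.elim (fun _ => 1) y)
    (regularOn_poly (fun i => IsPF.coord _) _) (regularOn_poly (fun i => ?_) _) ?_ ?_ ?_ ?_ ?_ ?_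
  · rcases i with i | i
    · exact IsPF.one
    · exact IsPF.coord _
  · intro z hz
    exact hz.2
  · intro z hz
    exact ⟨rfl, hz⟩
  · rintro z ⟨h1, -⟩
    funext i
    rcases i with i | i
    · exact (Set.mem_singleton_iff.1 h1).symm
    · rfl
  · intro z _
    rfl
  · intro z _
    rfl
  · intro l _ z _
    rfl

/-- `E = {c ≠ 0}` -/
theorem chi_low_ne {W : Set (Pt k (Fin m))} {e : Fin n → Fin m} (h : PD f W e)
    (g : MvPolynomial (Fin m) k) (hN : 0 < N) {i : ℕ} (hi : i ≤ N) :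
    M.χ _ (Vc (SE W {c | c ≠ 0} N) (cw g 1 N) i) (wtU m N) N (bsU e N) =
      M.χ _ (TJ g W i N) 0 1 (bs e N) * (M.L - 1) := by
  rw [← triv_TJ M h g i hN]
  have hV := valid_Vc (valid_SE h ce_ne hN) (isPF_cw g 1 N) (hom_cw W {c | c ≠ 0} g) i
  rw [Vc_low W {c | c ≠ 0} g hi] at hV ⊢
  have h1 := chi_gm M (valid_TJ (N := N) h g i hN) 0 (fun _ => 0)
  rw [pow_zero, mul_one] at h1
  rw [← h1]
  refine isoD M hV (valid_and (valid_prod (valid_TJ h g i hN) _) (Sum.inr 0))
    (fun z => Sum.elim (fun p => z (Sum.inr p)) (fun _ => z (Sum.inl ())))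
    (fun z => Sum.elim (fun _ => z (Sum.inr 0)) (fun p => z (Sum.inl p)))
    (regularOn_poly (fun i => ?_) _) (regularOn_poly (fun i => ?_) _) ?_ ?_ ?_ ?_ ?_ ?_
  · rcases i with i | i
    · exact IsPF.coord _
    · exact IsPF.coord _
  · rcases i with i | i
    · exact IsPF.coord _
    · exact IsPF.coord _
  · rintro z ⟨h2, h3⟩
    exact ⟨h3, h2⟩
  · rintro z ⟨h2, h3⟩
    exact ⟨h3, h2⟩
  · intro z _
    funext i
    rcases i with i | i
    · rfl
    · rfl
  · intro z _
    funext i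
    rcases i with i | i
    · rfl
    · show z (Sum.inr 0) = z (Sum.inr i)
      have hi : i = 0 := Fin.ext (by have := i.2; omega)
      rw [hi]
  · intro z _
    rw [cbase_map]
    rfl
  · intro l _ z _
    funext i
    rcases i with i | i
    · rfl
    · rfl

end act

/-! ### The jets of `f + y z` -/

section pair

variable {m : ℕ}

theorem mem_pair {N : ℕ} (g : MvPolynomial (Fin m) k) (W : Set (Pt k (Fin m)))
    (E : Set (AlgebraicClosure k))
    (z : Pt k (Unit ⊕ Fin (m + 2) × Fin (N + 1))) (w : Pt k ((Unit ⊕ Fin m × Fin (N + 1)) ⊕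
      (Fin (N + 1) ⊕ Fin (N + 1))))
    (h0 : w (Sum.inl (Sum.inl ())) = z (Sum.inl ()))
    (hx : ∀ p : Fin m × Fin (N + 1), w (Sum.inl (Sum.inr p)) = z (Sum.inr (Fin.castAdd 2 p.1, p.2)))
    (hy : ∀ a, w (Sum.inr (Sum.inl a)) = z (Sum.inr (Fin.natAdd m 0, a)))
    (hz : ∀ a, w (Sum.inr (Sum.inr a)) = z (Sum.inr (Fin.natAdd m 1, a))) :
    z ∈ JetE (addyz g) (yz0 W) E 1 N ↔ w ∈ PSL (SE W E N) (cw g 1 N) N := by
  have e1 : (fun p : Fin m × Fin (N + 1) => w (Sum.inl (Sum.inr p))) =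
      fun p => z (Sum.inr (Fin.castAdd 2 p.1, p.2)) := funext hx
  have e2 : (fun a => w (Sum.inr (Sum.inl a))) = fun a => z (Sum.inr (Fin.natAdd m 0, a)) :=
    funext hy
  have e3 : (fun a => w (Sum.inr (Sum.inr a))) = fun a => z (Sum.inr (Fin.natAdd m 1, a)) :=
    funext hz
  have e0 : (fun i : Fin m => w (Sum.inl (Sum.inr (i, 0)))) =
      fun i => z (Sum.inr (Fin.castAdd 2 i, 0)) := funext fun i => hx (i, 0)
  have key : ∀ j, PowerSeries.coeff j (aeval (ar fun i => z (Sum.inr i)) (addyz g)) =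
      PowerSeries.coeff j (aeval (ar fun i => w (Sum.inl (Sum.inr i))) g) +
      PowerSeries.coeff j (ser (fun a => w (Sum.inr (Sum.inl a))) *
        ser (fun a => w (Sum.inr (Sum.inr a)))) := by
    intro j
    rw [aeval_yz, map_add, e1, e2, e3]
  constructor
  · rintro ⟨h1, ⟨h4, h5, h6⟩, h2, h3⟩
    refine ⟨⟨⟨by show w (Sum.inl (Sum.inl ())) ∈ E; rw [h0]; exact h1, ?_⟩, fun j hj => ?_⟩, ?_, ?_⟩
    · show (fun i => w (Sum.inl (Sum.inr (i, 0)))) ∈ W
      rw [e0]
      exact h4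
    · by_cases h : j = N
      · subst h
        rw [cw, if_pos rfl]
        have h4 : PowerSeries.coeff j (aeval (ar fun i => z (Sum.inr i)) (addyz g)) =
          z (Sum.inl ()) ^ 1 := h3
        rw [key] at h4
        rw [h0]
        linear_combination h4
      · rw [cw, if_neg h, sub_zero]
        have h4 := h2 j (by omega)
        rw [key] at h4
        exact h4
    · rw [hy]
      exact h5
    · rw [hz]
      exact h6
  · rintro ⟨⟨⟨h1, h1'⟩, h2⟩, hy0, hz0⟩
    have h1'' : (fun i => w (Sum.inl (Sum.inr (i, 0)))) ∈ W := h1'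
    rw [e0] at h1''
    refine ⟨by rw [← h0]; exact h1, ⟨h1'', ?_, ?_⟩, fun j hj => ?_, ?_⟩
    · exact (hy 0).symm.trans hy0
    · exact (hz 0).symm.trans hz0
    · have h4 := h2 j (by omega)
      rw [cw, if_neg (by omega), sub_zero] at h4
      rw [key]
      exact h4
    · have h4 := h2 N (by omega)
      rw [cw, if_pos rfl] at h4
      show PowerSeries.coeff N (aeval (ar fun i => z (Sum.inr i)) (addyz g)) = z (Sum.inl ()) ^ 1
      rw [key, ← h0]
      linear_combination h4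

/-- **The class of the jets of `f + y z`.** -/
theorem chi_pair (M : EMeas f R) {W : Set (Pt k (Fin m))} {e : Fin n → Fin m} (h : PD f W e)
    {E : Set (AlgebraicClosure k)} (hE : CE E) (g : MvPolynomial (Fin m) k) (a : ℕ) :
    M.χ _ (JetE (addyz g) (yz0 W) E 1 (a + 1)) (wtU (m + 2) (a + 1)) (a + 1)
      (bsU (fun i => Fin.castAdd 2 (e i)) (a + 1)) =
      M.χ _ (JetE g W E 1 (a + 1)) (wtU m (a + 1)) (a + 1) (bsU e (a + 1)) * M.L ^ (a + 2) +
      ∑ i ∈ Finset.range a, (M.L - 1) * M.L ^ (a + 1) *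
        M.χ _ (Vc (SE W E (a + 1)) (cw g 1 (a + 1)) (i + 2)) (wtU m (a + 1)) (a + 1)
          (bsU e (a + 1)) := by
  have hS := valid_SE (N := a + 1) h hE (Nat.succ_pos a)
  have h1 := chiE_PSL M a hS (isPF_cw g 1 (a + 1)) (hom_cw W E g)
  rw [Vc_topE] at h1
  rw [← h1]
  refine isoD M (valid_JetE h.yz0 hE _ (Nat.succ_pos a))
    (valid_PSL hS (isPF_cw g 1 (a + 1)) (hom_cw W E g) (a + 1))
    (fun z => Sum.elim (Sum.elim (fun _ => z (Sum.inl ()))
      (fun p => z (Sum.inr (Fin.castAdd 2 p.1, p.2))))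
      (Sum.elim (fun a => z (Sum.inr (Fin.natAdd m 0, a)))
        fun a => z (Sum.inr (Fin.natAdd m 1, a))))
    (fun w => Sum.elim (fun _ => w (Sum.inl (Sum.inl ()))) fun p =>
      Fin.addCases (fun a => w (Sum.inl (Sum.inr (a, p.2))))
        (fun b => Fin.cases (w (Sum.inr (Sum.inl p.2))) (fun _ => w (Sum.inr (Sum.inr p.2))) b) p.1)
    (regularOn_poly (fun i => ?_) _) (regularOn_poly (fun i => ?_) _) ?_ ?_ ?_ ?_ ?_ ?_
  · rcases i with (i | i) | i | i
    · exact IsPF.coord _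
    · exact IsPF.coord _
    · exact IsPF.coord _
    · exact IsPF.coord _
  · rcases i with i | ⟨i, a⟩
    · exact IsPF.coord _
    · refine Fin.addCases (fun i => ?_) (fun b => ?_) i
      · simp only [Sum.elim_inr, Fin.addCases_left]
        exact IsPF.coord _
      · simp only [Sum.elim_inr, Fin.addCases_right]
        refine Fin.cases ?_ (fun b => ?_) b
        · exact IsPF.coord _
        · exact IsPF.coord _
  · intro z hz
    exact (mem_pair g W E z _ rfl (fun _ => rfl) (fun _ => rfl) fun _ => rfl).1 hz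
  · intro w hw
    refine (mem_pair g W E _ w rfl (fun p => ?_) (fun a => ?_) fun a => ?_).2 hw
    · simp only [Sum.elim_inr, Fin.addCases_left]
    · simp only [Sum.elim_inr, Fin.addCases_right]
      rfl
    · simp only [Sum.elim_inr, Fin.addCases_right]
      rfl
  · intro z _
    funext i
    rcases i with i | ⟨i, a⟩
    · rfl
    · refine Fin.addCases (fun i => ?_) (fun b => ?_) i
      · simp only [Sum.elim_inr, Fin.addCases_left, Sum.elim_inl]
      · simp only [Sum.elim_inr, Fin.addCases_right, Sum.elim_inl]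
        fin_cases b
        · rfl
        · rfl
  · intro w _
    funext i
    rcases i with (i | i) | i | i
    · rfl
    · simp only [Sum.elim_inl, Sum.elim_inr, Fin.addCases_left]
    · simp only [Sum.elim_inl, Sum.elim_inr, Fin.addCases_right]
      rfl
    · simp only [Sum.elim_inr, Fin.addCases_right]
      rfl
  · intro z _
    rfl
  · intro l _ z _
    funext i
    rcases i with (i | i) | i | i
    · rfl
    · rfl
    · show l ^ (((i : ℕ) : ℤ)) * _ = l ^ (((i : ℕ) : ℤ) + 0) * _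
      rw [add_zero]
      rfl
    · show l ^ (((i : ℕ) : ℤ)) * _ = l ^ (((i : ℕ) : ℤ) + 0) * _
      rw [add_zero]
      rfl

/-- **`E = {1}`.** -/
theorem chi_one_pair (M : EMeas f R) {W : Set (Pt k (Fin m))} {e : Fin n → Fin m} (h : PD f W e)
    (g : MvPolynomial (Fin m) k) (a : ℕ) :
    M.χ _ (JetS (addyz g) (yz0 W) {1} (a + 1)) (wt (m + 2) (a + 1)) (a + 1)
      (bs (fun i => Fin.castAdd 2 (e i)) (a + 1)) =
      M.χ _ (JetS g W {1} (a + 1)) (wt m (a + 1)) (a + 1) (bs e (a + 1)) * M.L ^ (a + 2) +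
      ∑ i ∈ Finset.range a, (M.L - 1) * M.L ^ (a + 1) *
        M.χ _ (TJ g W (i + 2) (a + 1)) 0 1 (bs e (a + 1)) := by
  have h1 := chi_pair M h ce_one g a
  rw [chi_JetE_one' M h.yz0 ce_one _ (Nat.succ_pos a) (valid_one h.yz0 _ (Nat.succ_pos a)),
    chi_JetE_one' M h ce_one _ (Nat.succ_pos a) (valid_one h _ (Nat.succ_pos a))] at h1
  rw [h1]
  congr 1
  refine Finset.sum_congr rfl fun i hi => ?_
  have := Finset.mem_range.1 hi
  rw [chi_low_one M h g (Nat.succ_pos a) (by omega : i + 2 ≤ a + 1)]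

/-- **`E = {c ≠ 0}`.** -/
theorem chi_ne_pair (M : EMeas f R) {W : Set (Pt k (Fin m))} {e : Fin n → Fin m} (h : PD f W e)
    (g : MvPolynomial (Fin m) k) (a : ℕ) :
    M.χ _ (JetS (addyz g) (yz0 W) {c | c ≠ 0} (a + 1)) 0 1
      (bs (fun i => Fin.castAdd 2 (e i)) (a + 1)) =
      M.χ _ (JetS g W {c | c ≠ 0} (a + 1)) 0 1 (bs e (a + 1)) * M.L ^ (a + 2) +
      ∑ i ∈ Finset.range a, (M.L - 1) * M.L ^ (a + 1) *
        (M.χ _ (TJ g W (i + 2) (a + 1)) 0 1 (bs e (a + 1)) * (M.L - 1)) := by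
  have h1 := chi_pair M h ce_ne g a
  rw [chi_JetE_one' M h.yz0 ce_ne _ (Nat.succ_pos a) (valid_A h.yz0 _ (Nat.succ_pos a)),
    chi_JetE_one' M h ce_ne _ (Nat.succ_pos a) (valid_A h _ (Nat.succ_pos a)),
    triv_A M h.yz0 _ (Nat.succ_pos a), triv_A M h _ (Nat.succ_pos a)] at h1
  rw [h1]
  congr 1
  refine Finset.sum_congr rfl fun i hi => ?_
  have := Finset.mem_range.1 hi
  rw [chi_low_ne M h g (Nat.succ_pos a) (by omega : i + 2 ≤ a + 1)]

end pair

end Pool.Agent.Q223.TE
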