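import Pool.Agent.Q223.TW.PairL
import Pool.Agent.Q57.QE.Gm

/-!
# The class of the solutions of `c + y z = 0` modulo `t ^ n`, with a diagonal action
-/

set_option autoImplicit false
set_option linter.unusedSectionVars false
set_option linter.unusedVariables false

namespace Pool.Agent.Q223.TE

open MvPolynomial Pool.Agent.W428.MOT Pool.Agent.TH192.MT
open Pool.Agent.W358.ME.EK0 (valid_prod valid_union)
open Pool.Agent.Q223.TW (ser coeff_ser coeff_ser' coeff_mul_congr ser_zero coeff_step coeff_step0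
  isPA_ser PS Vc constr_Vc constr_PS PSL constr_PSL Vc_Vc Vc_Vc2 coeffL_zero coeffL_one coeffL_succ)

variable {k : Type} [Field k] {n : ℕ} {f : MvPolynomial (Fin n) k} {R : Type} [CommRing R]

theorem ne_zero_of_pow' {F : Type} [Field F] {l : F} {d : ℕ} (hd : 0 < d) (hl : l ^ d = 1) :
    l ≠ 0 := by
  rintro rfl
  rw [zero_pow hd.ne'] at hl
  exact zero_ne_one hl

section tools

variable {ι κ : Type}

theorem cbase_map (β : Fin n → Option ι) (g : ι → κ) (z : Pt k κ) :
    cbase (fun i => (β i).map g) z = cbase β (fun i => z (g i)) := by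
  funext i
  simp only [cbase]
  cases β i <;> rfl

/-- isomorphisms with the same `d` -/
theorem isoD [Fintype ι] [Fintype κ] (M : EMeas f R) {S : Set (Pt k ι)} {T : Set (Pt k κ)}
    {ρ : ι → ℤ} {ρ' : κ → ℤ} {d : ℕ} {β : Fin n → Option ι} {β' : Fin n → Option κ}
    (hS : Valid f S ρ d β) (hT : Valid f T ρ' d β') (φ : Pt k ι → Pt k κ) (ψ : Pt k κ → Pt k ι)
    (h1 : RegularOn S φ) (h2 : RegularOn T ψ) (h3 : Set.MapsTo φ S T) (h4 : Set.MapsTo ψ T S)
    (h5 : ∀ z ∈ S, ψ (φ z) = z) (h6 : ∀ w ∈ T, φ (ψ w) = w)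
    (h7 : ∀ z ∈ S, cbase β' (φ z) = cbase β z)
    (h8 : ∀ l : AlgebraicClosure k, l ^ d = 1 → ∀ z ∈ S, φ (dact ρ l z) = dact ρ' l (φ z)) :
    M.χ ι S ρ d β = M.χ κ T ρ' d β' := by
  refine M.iso S T ρ ρ' d d β β' hS hT φ ψ h1 h2 h3 h4 h5 h6 h7 ?_
  intro l hl z hz
  exact h8 (l ^ d) (by rw [← pow_mul]; exact hl) z hz

/-- free coordinates -/
theorem splitD {α : Type} [Fintype ι] [Fintype κ] [Fintype α] (M : EMeas f R) (e : α ⊕ κ ≃ ι)
    {S : Set (Pt k ι)} {T : Set (Pt k α)} {ρ : ι → ℤ} {d : ℕ} {β : Fin n → Option ι}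
    {β' : Fin n → Option α} (hS : Valid f S ρ d β)
    (hT : Valid f T (fun a => ρ (e (Sum.inl a))) d β')
    (h : ∀ z, z ∈ S ↔ (fun a => z (e (Sum.inl a))) ∈ T)
    (hβ : ∀ z ∈ S, cbase β z = cbase β' (fun a => z (e (Sum.inl a)))) :
    M.χ ι S ρ d β = M.χ α T (fun a => ρ (e (Sum.inl a))) d β' * M.L ^ Fintype.card κ := by
  have h1 := M.aff (κ := κ) T (fun a => ρ (e (Sum.inl a))) (fun c => ρ (e (Sum.inr c))) d β' hT
  rw [← h1]
  refine isoD M hS (valid_prod hT _) (fun z a => z (e a)) (fun w i => w (e.symm i))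
    (regularOn_poly (fun i => IsPF.coord _) _) (regularOn_poly (fun i => IsPF.coord _) _)
    (fun z hz => (h z).1 hz) (fun w hw => ?_) (fun z _ => ?_) (fun w _ => ?_) (fun z hz => ?_) ?_
  · rw [h]
    have e1 : (fun a => w (e.symm (e (Sum.inl a)))) = fun a => w (Sum.inl a) := by
      funext a
      rw [Equiv.symm_apply_apply]
    show (fun a => w (e.symm (e (Sum.inl a)))) ∈ T
    rw [e1]
    exact hw
  · funext i
    show z (e (e.symm i)) = z i
    rw [Equiv.apply_symm_apply]
  · funext a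
    show w (e.symm (e a)) = w a
    rw [Equiv.symm_apply_apply]
  · rw [cbase_map]
    exact (hβ z hz).symm
  · intro l _ z _
    funext a
    rcases a with a | a
    · rfl
    · rfl

end tools

section ser

variable {F : Type} [Field F]

theorem ser_smul {m : ℕ} {l : F} (hl : l ≠ 0) (r : ℤ) (y : Fin m → F) :
    ser (fun a : Fin m => l ^ (((a : ℕ) : ℤ) + r) * y a) =
      PowerSeries.C (l ^ r) * PowerSeries.rescale l (ser y) := by
  ext j
  rw [PowerSeries.coeff_C_mul, PowerSeries.coeff_rescale]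
  by_cases h : j < m
  · rw [coeff_ser _ _ h, coeff_ser _ _ h, zpow_add₀ hl, zpow_natCast]
    ring
  · rw [coeff_ser' _ _ h, coeff_ser' _ _ h, mul_zero, mul_zero]

theorem coeff_smul {m : ℕ} {l : F} (hl : l ≠ 0) (r s : ℤ) (y z : Fin m → F) (j : ℕ) :
    PowerSeries.coeff j (ser (fun a : Fin m => l ^ (((a : ℕ) : ℤ) + r) * y a) *
      ser (fun a : Fin m => l ^ (((a : ℕ) : ℤ) + s) * z a)) =
      l ^ ((j : ℤ) + r + s) * PowerSeries.coeff j (ser y * ser z) := by
  rw [ser_smul hl, ser_smul hl]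
  have h1 : PowerSeries.C (l ^ r) * PowerSeries.rescale l (ser y) *
      (PowerSeries.C (l ^ s) * PowerSeries.rescale l (ser z)) =
      PowerSeries.C (l ^ r * l ^ s) * PowerSeries.rescale l (ser y * ser z) := by
    rw [map_mul, map_mul]
    ring
  rw [h1, PowerSeries.coeff_C_mul, PowerSeries.coeff_rescale, zpow_add₀ hl, zpow_add₀ hl,
    zpow_natCast]
  ring

end ser

section pair

variable {ρ : Type}

/-- the weights -/
def wPS (w : ρ → ℤ) (r s : ℤ) (m : ℕ) : ρ ⊕ (Fin m ⊕ Fin m) → ℤ :=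
  Sum.elim w (Sum.elim (fun a => ((a : ℕ) : ℤ) + r) (fun a => ((a : ℕ) : ℤ) + s))

/-- the functions `c_j` are homogeneous of weight `j + r + s` -/
def Hom (S : Set (Pt k ρ)) (w : ρ → ℤ) (d : ℕ) (r s : ℤ)
    (c : ℕ → Pt k ρ → AlgebraicClosure k) : Prop :=
  ∀ l : AlgebraicClosure k, l ^ d = 1 → ∀ z ∈ S, ∀ j : ℕ,
    c j (dact w l z) = l ^ ((j : ℤ) + r + s) * c j z

theorem valid_Vc {S : Set (Pt k ρ)} {w : ρ → ℤ} {d : ℕ} {β : Fin n → Option ρ}
    (hS : Valid f S w d β) {c : ℕ → Pt k ρ → AlgebraicClosure k} (hc : ∀ j, IsPF (c j)) {r s : ℤ}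
    (hh : Hom S w d r s c) (i : ℕ) : Valid f (Vc S c i) w d β where
  constr := constr_Vc hS.constr hc i
  pos := hS.pos
  stable := fun l hl z hz => ⟨hS.stable l hl z hz.1, fun j hj => by
    rw [hh l hl z hz.1 j, hz.2 j hj, mul_zero]⟩
  base := fun z hz => hS.base z hz.1
  inv := hS.inv

theorem valid_PS {S : Set (Pt k ρ)} {w : ρ → ℤ} {d : ℕ} {β : Fin n → Option ρ}
    (hS : Valid f S w d β) {c : ℕ → Pt k ρ → AlgebraicClosure k} (hc : ∀ j, IsPF (c j)) {r s : ℤ}
    (hh : Hom S w d r s c) (m : ℕ) :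
    Valid f (PS S c m) (wPS w r s m) d (fun i => (β i).map Sum.inl) where
  constr := constr_PS hS.constr hc m
  pos := hS.pos
  stable := fun l hl z hz => by
    refine ⟨hS.stable l hl _ hz.1, fun j hj => ?_⟩
    have h1 : c j (fun i => dact (wPS w r s m) l z (Sum.inl i)) =
        l ^ ((j : ℤ) + r + s) * c j (fun i => z (Sum.inl i)) := hh l hl _ hz.1 j
    have h2 := coeff_smul (ne_zero_of_pow' hS.pos hl) r s (fun a => z (Sum.inr (Sum.inl a)))
      (fun a => z (Sum.inr (Sum.inr a))) j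
    have h3 : PowerSeries.coeff j
        (ser (fun a => dact (wPS w r s m) l z (Sum.inr (Sum.inl a))) *
          ser (fun a => dact (wPS w r s m) l z (Sum.inr (Sum.inr a)))) =
        l ^ ((j : ℤ) + r + s) * PowerSeries.coeff j
          (ser (fun a => z (Sum.inr (Sum.inl a))) * ser (fun a => z (Sum.inr (Sum.inr a)))) := h2
    rw [h1, h3, ← mul_add, hz.2 j hj, mul_zero]
  base := fun z hz => by
    rw [cbase_map]
    exact hS.base _ hz.1
  inv := fun i j h => by
    rw [Option.map_eq_some_iff] at h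
    obtain ⟨a, ha, rfl⟩ := h
    exact hS.inv i a ha

variable [Fintype ρ] (M : EMeas f R)

/-- restriction to `z_i ≠ 0` -/
theorem valid_and {α : Type} {S : Set (Pt k α)} {w : α → ℤ} {d : ℕ} {β : Fin n → Option α}
    (hS : Valid f S w d β) (i : α) : Valid f (S ∩ {z | z i ≠ 0}) w d β where
  constr := hS.constr.inter (Constr.eqz (IsPF.coord i)).compl
  pos := hS.pos
  stable := fun l hl z hz => ⟨hS.stable l hl z hz.1,
    mul_ne_zero (zpow_ne_zero _ (ne_zero_of_pow' hS.pos hl)) hz.2⟩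
  base := fun z hz => hS.base z hz.1
  inv := hS.inv

theorem valid_and0 {α : Type} {S : Set (Pt k α)} {w : α → ℤ} {d : ℕ} {β : Fin n → Option α}
    (hS : Valid f S w d β) (i : α) : Valid f (S ∩ {z | z i = 0}) w d β where
  constr := hS.constr.inter (Constr.eqz (IsPF.coord i))
  pos := hS.pos
  stable := fun l hl z hz => ⟨hS.stable l hl z hz.1, by
    show l ^ w i * z i = 0
    have h1 : z i = 0 := hz.2
    rw [h1, mul_zero]⟩
  base := fun z hz => hS.base z hz.1
  inv := hS.inv

theorem chi_and {α : Type} [Fintype α] {S : Set (Pt k α)} {w : α → ℤ} {d : ℕ}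
    {β : Fin n → Option α} (hS : Valid f S w d β) (i : α) :
    M.χ α S w d β = M.χ α (S ∩ {z | z i ≠ 0}) w d β + M.χ α (S ∩ {z | z i = 0}) w d β := by
  rw [← M.add _ _ _ _ _ (valid_and hS i) (valid_and0 hS i)]
  · congr 1
    ext z
    simp only [Set.mem_union, Set.mem_inter_iff, Set.mem_ofPred_eq]
    tauto
  · rw [Set.disjoint_left]
    rintro z ⟨-, h3⟩ ⟨-, h4⟩
    exact h3 h4

/-- a free coordinate which is not zero and `m` free coordinates -/
theorem chi_gm {S : Set (Pt k ρ)} {w : ρ → ℤ} {d : ℕ} {β : Fin n → Option ρ}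
    (hS : Valid f S w d β) (m : ℕ) (w' : Fin (m + 1) → ℤ) :
    M.χ (ρ ⊕ Fin (m + 1)) ({z | (fun i => z (Sum.inl i)) ∈ S} ∩ {z | z (Sum.inr 0) ≠ 0})
      (Sum.elim w w') d (fun i => (β i).map Sum.inl) = M.χ ρ S w d β * ((M.L - 1) * M.L ^ m) := by
  have hP := valid_prod hS w'
  have h1 := chi_and M hP (Sum.inr 0)
  have h2 := M.aff (κ := Fin (m + 1)) S w w' d β hS
  rw [Fintype.card_fin] at h2
  have hP0 := valid_and0 hP (Sum.inr 0)
  have hA := valid_prod hS (fun a : Fin m => w' a.succ)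
  have h3 : M.χ (ρ ⊕ Fin (m + 1)) ({z | (fun i => z (Sum.inl i)) ∈ S} ∩ {z | z (Sum.inr 0) = 0})
      (Sum.elim w w') d (fun i => (β i).map Sum.inl) =
      M.χ (ρ ⊕ Fin m) {z | (fun i => z (Sum.inl i)) ∈ S} (Sum.elim w fun a : Fin m => w' a.succ) d
        (fun i => (β i).map Sum.inl) := by
    refine isoD M hP0 hA
      (fun z => Sum.elim (fun i => z (Sum.inl i)) fun a => z (Sum.inr a.succ))
      (fun z => Sum.elim (fun i => z (Sum.inl i)) (Fin.cases 0 fun a => z (Sum.inr a)))
      (regularOn_poly (fun i => ?_) _) (regularOn_poly (fun i => ?_) _) ?_ ?_ ?_ ?_ ?_ ?_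
    · rcases i with i | i
      · exact IsPF.coord _
      · exact IsPF.coord _
    · rcases i with i | i
      · exact IsPF.coord _
      · refine Fin.cases ?_ (fun a => ?_) i
        · exact IsPF.zero
        · exact IsPF.coord _
    · rintro z ⟨h, -⟩
      exact h
    · rintro z h
      exact ⟨h, rfl⟩
    · rintro z ⟨-, h⟩
      funext i
      rcases i with i | i
      · rfl
      · refine Fin.cases ?_ (fun a => ?_) i
        · exact h.symm
        · rfl
    · rintro z -
      funext i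
      rcases i with i | i
      · rfl
      · rfl
    · intro z _
      rw [cbase_map, cbase_map]
      rfl
    · intro l _ z _
      funext i
      rcases i with i | i
      · rfl
      · rfl
  rw [h3, M.aff (κ := Fin m) S w _ d β hS, Fintype.card_fin, h2] at h1
  linear_combination -h1

/-- the part with `y_0 ≠ 0` -/
theorem chiE_unit {S : Set (Pt k ρ)} {w : ρ → ℤ} {d : ℕ} {β : Fin n → Option ρ}
    (hS : Valid f S w d β) {c : ℕ → Pt k ρ → AlgebraicClosure k} (hc : ∀ j, IsPF (c j)) {r s : ℤ}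
    (hh : Hom S w d r s c) (m : ℕ) :
    M.χ _ (PS S c (m + 1) ∩ {z | z (Sum.inr (Sum.inl 0)) ≠ 0}) (wPS w r s (m + 1)) d
      (fun i => (β i).map Sum.inl) = M.χ _ S w d β * ((M.L - 1) * M.L ^ m) := by
  rw [← chi_gm M hS m (fun a => ((a : ℕ) : ℤ) + r)]
  refine isoD M (valid_and (valid_PS hS hc hh (m + 1)) _) (valid_and (valid_prod hS _) _)
    (fun z => Sum.elim (fun i => z (Sum.inl i)) fun a => z (Sum.inr (Sum.inl a)))
    (fun w => Sum.elim (fun i => w (Sum.inl i)) (Sum.elim (fun a => w (Sum.inr a))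
      fun a => PowerSeries.coeff (a : ℕ) ((- PowerSeries.mk fun j => c j fun i => w (Sum.inl i)) *
        (ser fun a => w (Sum.inr a))⁻¹)))
    (regularOn_poly (fun i => ?_) _) ?_ ?_ ?_ ?_ ?_ ?_ ?_
  · rcases i with i | i
    · exact IsPF.coord _
    · exact IsPF.coord _
  · rintro (i | i | i)
    · exact (IsPF.coord _).isRF _
    · exact (IsPF.coord _).isRF _
    · refine ra_mul (γ := fun w : Pt k (ρ ⊕ Fin (m + 1)) =>
        (- PowerSeries.mk fun j => c j fun i => w (Sum.inl i)))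
        (δ := fun w : Pt k (ρ ⊕ Fin (m + 1)) => (ser fun a => w (Sum.inr a))⁻¹) ?_ ?_ _
      · intro j
        simp only [map_neg, PowerSeries.coeff_mk]
        exact rf_neg (((hc j).comp (fun w : Pt k (ρ ⊕ Fin (m + 1)) => fun i => w (Sum.inl i))
          fun i => IsPF.coord _).isRF _)
      · refine ra_inv (fun j => ((isPA_ser _) j).isRF _) ?_
        rintro w ⟨-, hw⟩
        rw [coeff_ser _ _ (Nat.succ_pos m)]
        exact hw
  · rintro z ⟨⟨h1, -⟩, h2⟩
    exact ⟨h1, h2⟩
  · rintro w ⟨h1, h2⟩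
    refine ⟨⟨h1, fun j hj => ?_⟩, h2⟩
    have h3 : PowerSeries.constantCoeff (ser fun a => w (Sum.inr a)) ≠ 0 := by
      rw [← PowerSeries.coeff_zero_eq_constantCoeff_apply, coeff_ser _ _ (Nat.succ_pos m)]
      exact h2
    change c j (fun i => w (Sum.inl i)) + PowerSeries.coeff j ((ser fun a => w (Sum.inr a)) *
      ser fun a : Fin (m + 1) => PowerSeries.coeff (a : ℕ) ((- PowerSeries.mk fun j => c j
        fun i => w (Sum.inl i)) * (ser fun a => w (Sum.inr a))⁻¹)) = 0
    rw [coeff_mul_congr _ _ ((- PowerSeries.mk fun j => c j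
        fun i => w (Sum.inl i)) * (ser fun a => w (Sum.inr a))⁻¹) j fun k hk => by
      rw [coeff_ser _ _ (by omega : k < m + 1)]]
    have h4 : (ser fun a => w (Sum.inr a)) * ((- PowerSeries.mk fun j => c j
        fun i => w (Sum.inl i)) * (ser fun a => w (Sum.inr a))⁻¹) =
        - PowerSeries.mk fun j => c j fun i => w (Sum.inl i) := by
      rw [mul_left_comm, PowerSeries.mul_inv_cancel _ h3, mul_one]
    rw [h4, map_neg, PowerSeries.coeff_mk]
    exact add_neg_cancel _
  · rintro z ⟨⟨h1, h1'⟩, h2⟩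
    have h3 : PowerSeries.constantCoeff (ser fun a => z (Sum.inr (Sum.inl a))) ≠ 0 := by
      rw [← PowerSeries.coeff_zero_eq_constantCoeff_apply, coeff_ser _ _ (Nat.succ_pos m)]
      exact h2
    funext i
    rcases i with i | i | i
    · rfl
    · rfl
    · change PowerSeries.coeff (i : ℕ) ((- PowerSeries.mk fun j => c j fun i => z (Sum.inl i)) *
        (ser fun a => z (Sum.inr (Sum.inl a)))⁻¹) = z (Sum.inr (Sum.inr i))
      rw [mul_comm, coeff_mul_congr _ _ ((ser fun a => z (Sum.inr (Sum.inl a))) *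
        (ser fun a => z (Sum.inr (Sum.inr a)))) i fun k hk => by
          rw [map_neg, PowerSeries.coeff_mk]
          have := h1' k (by omega)
          linear_combination -this]
      rw [← mul_assoc, PowerSeries.inv_mul_cancel _ h3, one_mul, coeff_ser _ _ i.2]
  · rintro w ⟨h1, h2⟩
    funext i
    rcases i with i | i
    · rfl
    · rfl
  · intro z _
    rw [cbase_map, cbase_map]
    rfl
  · intro l _ z _
    funext i
    rcases i with i | i
    · rfl
    · rfl

theorem hom_shift {S : Set (Pt k ρ)} {w : ρ → ℤ} {d : ℕ} {r s : ℤ}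
    {c : ℕ → Pt k ρ → AlgebraicClosure k} (hh : Hom S w d r s c) :
    Hom (Vc S c 1) w d (r + 1) s (fun j => c (j + 1)) := by
  intro l hl z hz j
  have h1 := hh l hl z hz.1 (j + 1)
  beta_reduce
  rw [h1]
  congr 2
  push_cast
  ring

/-- the part with `y_0 = 0` -/
theorem chiE_zero {S : Set (Pt k ρ)} {w : ρ → ℤ} {d : ℕ} {β : Fin n → Option ρ}
    (hS : Valid f S w d β) {c : ℕ → Pt k ρ → AlgebraicClosure k} (hc : ∀ j, IsPF (c j)) {r s : ℤ}
    (hh : Hom S w d r s c) (m : ℕ) :
    M.χ _ (PS S c (m + 1) ∩ {z | z (Sum.inr (Sum.inl 0)) = 0}) (wPS w r s (m + 1)) d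
      (fun i => (β i).map Sum.inl) =
      M.χ _ (PS (Vc S c 1) (fun j => c (j + 1)) m) (wPS w (r + 1) s m) d
        (fun i => (β i).map Sum.inl) * M.L := by
  have hP := valid_PS (valid_Vc hS hc hh 1) (fun j => hc (j + 1)) (hom_shift hh) m
  have h0 := M.aff (κ := Fin 1) _ _ (fun _ => (m : ℤ) + s) d _ hP
  rw [Fintype.card_fin, pow_one] at h0
  rw [← h0]
  refine isoD M (valid_and0 (valid_PS hS hc hh (m + 1)) _) (valid_prod hP _)
    (fun z => Sum.elim (Sum.elim (fun i => z (Sum.inl i)) (Sum.elim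
      (fun a => z (Sum.inr (Sum.inl a.succ))) (fun a => z (Sum.inr (Sum.inr a.castSucc)))))
      fun _ => z (Sum.inr (Sum.inr (Fin.last m))))
    (fun w => Sum.elim (fun i => w (Sum.inl (Sum.inl i))) (Sum.elim
      (Fin.cases 0 fun a => w (Sum.inl (Sum.inr (Sum.inl a))))
      (Fin.lastCases (w (Sum.inr 0)) fun a => w (Sum.inl (Sum.inr (Sum.inr a))))))
    (regularOn_poly (fun i => ?_) _) (regularOn_poly (fun i => ?_) _) ?_ ?_ ?_ ?_ ?_ ?_
  · rcases i with (i | i | i) | i
    · exact IsPF.coord _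
    · exact IsPF.coord _
    · exact IsPF.coord _
    · exact IsPF.coord _
  · rcases i with i | i | i
    · exact IsPF.coord _
    · refine Fin.cases ?_ (fun a => ?_) i
      · exact IsPF.zero
      · exact IsPF.coord _
    · refine Fin.lastCases ?_ (fun a => ?_) i
      · simp only [Sum.elim_inr, Fin.lastCases_last]
        exact IsPF.coord _
      · simp only [Sum.elim_inr, Fin.lastCases_castSucc]
        exact IsPF.coord _
  · rintro z ⟨⟨h1, h1'⟩, h2⟩
    have h2' : (fun a => z (Sum.inr (Sum.inl a))) 0 = 0 := h2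
    refine ⟨⟨h1, fun j hj => ?_⟩, fun j hj => ?_⟩
    · obtain rfl : j = 0 := by omega
      have := h1' 0 (Nat.succ_pos m)
      rw [coeff_step0 _ _ h2', add_zero] at this
      exact this
    · have := h1' (j + 1) (by omega)
      rw [coeff_step _ _ h2' j hj] at this
      exact this
  · rintro w ⟨⟨h1, h1'⟩, h2⟩
    refine ⟨⟨h1, fun j hj => ?_⟩, rfl⟩
    rcases j with _ | j
    · rw [coeff_step0 _ _ rfl, add_zero]
      exact h1' 0 Nat.one_pos
    · rw [coeff_step _ _ rfl j (by omega)]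
      have := h2 j (by omega)
      simp only [Sum.elim_inr, Sum.elim_inl, Fin.lastCases_castSucc, Fin.cases_succ]
      exact this
  · rintro z ⟨⟨h1, h1'⟩, h2⟩
    funext i
    rcases i with i | i | i
    · rfl
    · refine Fin.cases ?_ (fun a => ?_) i
      · exact h2.symm
      · rfl
    · refine Fin.lastCases ?_ (fun a => ?_) i
      · simp only [Sum.elim_inr, Fin.lastCases_last]
      · simp only [Sum.elim_inr, Fin.lastCases_castSucc, Sum.elim_inl]
  · rintro w -
    funext i
    rcases i with (i | i | i) | i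
    · rfl
    · rfl
    · simp only [Sum.elim_inr, Fin.lastCases_castSucc, Sum.elim_inl]
    · simp only [Sum.elim_inr, Fin.lastCases_last]
      rw [Subsingleton.elim i 0]
  · intro z _
    rw [cbase_map, cbase_map, cbase_map]
    rfl
  · intro l _ z _
    funext i
    rcases i with (i | i | i) | i
    · rfl
    · show l ^ ((((i.succ : Fin (m + 1)) : ℕ) : ℤ) + r) * _ = l ^ (((i : ℕ) : ℤ) + (r + 1)) * _
      rw [Fin.val_succ]
      congr 2
      push_cast
      ring
    · show l ^ ((((i.castSucc : Fin (m + 1)) : ℕ) : ℤ) + s) * _ = l ^ (((i : ℕ) : ℤ) + s) * _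
      rfl
    · show l ^ ((((Fin.last m : Fin (m + 1)) : ℕ) : ℤ) + s) * _ = l ^ ((m : ℤ) + s) * _
      rfl

theorem chiE_PS (m : ℕ) : ∀ {S : Set (Pt k ρ)} {w : ρ → ℤ} {d : ℕ} {β : Fin n → Option ρ}
    (_ : Valid f S w d β) {c : ℕ → Pt k ρ → AlgebraicClosure k} (_ : ∀ j, IsPF (c j)) {r s : ℤ}
    (_ : Hom S w d r s c),
    M.χ _ (PS S c m) (wPS w r s m) d (fun i => (β i).map Sum.inl) =
      M.χ _ (Vc S c m) w d β * M.L ^ m +
      ∑ i ∈ Finset.range m, (M.L - 1) * M.L ^ (m - 1) * M.χ _ (Vc S c i) w d β := by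
  induction m with
  | zero =>
    intro S w d β hS c hc r s hh
    rw [Finset.range_zero, Finset.sum_empty, add_zero, pow_zero, mul_one]
    refine isoD M (valid_PS hS hc hh 0) (valid_Vc hS hc hh 0) (fun z i => z (Sum.inl i))
      (fun z => Sum.elim z (Sum.elim (fun a => a.elim0) (fun a => a.elim0)))
      (regularOn_poly (fun i => IsPF.coord _) _) (regularOn_poly (fun i => ?_) _) ?_ ?_ ?_ ?_ ?_ ?_
    · rcases i with i | i | i
      · exact IsPF.coord _
      · exact i.elim0
      · exact i.elim0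
    · intro z hz
      exact ⟨hz.1, fun j hj => absurd hj (Nat.not_lt_zero j)⟩
    · intro z hz
      exact ⟨hz.1, fun j hj => absurd hj (Nat.not_lt_zero j)⟩
    · intro z _
      funext i
      rcases i with i | i | i
      · rfl
      · exact i.elim0
      · exact i.elim0
    · intro z _
      rfl
    · intro z _
      rw [cbase_map]
    · intro l _ z _
      rfl
  | succ m ih =>
    intro S w d β hS c hc r s hh
    have h3 : Vc S c 0 = S := by
      ext r
      exact ⟨fun h => h.1, fun h => ⟨h, fun j hj => absurd hj (Nat.not_lt_zero j)⟩⟩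
    rw [chi_and M (valid_PS hS hc hh (m + 1)) (Sum.inr (Sum.inl 0)), chiE_unit M hS hc hh,
      chiE_zero M hS hc hh, ih (valid_Vc hS hc hh 1) (fun j => hc (j + 1)) (hom_shift hh),
      Finset.sum_range_succ', h3, Nat.add_sub_cancel]
    simp only [Vc_Vc]
    rcases m with _ | m
    · simp only [Finset.range_zero, Finset.sum_empty]
      ring
    · rw [add_mul, Finset.sum_mul]
      have h4 : ∀ i, (M.L - 1) * M.L ^ (m + 1 - 1) * M.χ _ (Vc S c (i + 1)) w d β * M.L =
          (M.L - 1) * M.L ^ (m + 1) * M.χ _ (Vc S c (i + 1)) w d β := by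
        intro i
        rw [Nat.add_sub_cancel]
        ring
      rw [Finset.sum_congr rfl fun i _ => h4 i]
      ring

/-! ### Both series without constant term -/

theorem valid_PSL {S : Set (Pt k ρ)} {w : ρ → ℤ} {d : ℕ} {β : Fin n → Option ρ}
    (hS : Valid f S w d β) {c : ℕ → Pt k ρ → AlgebraicClosure k} (hc : ∀ j, IsPF (c j)) {r s : ℤ}
    (hh : Hom S w d r s c) (m : ℕ) :
    Valid f (PSL S c m) (wPS w r s (m + 1)) d (fun i => (β i).map Sum.inl) := by
  have h1 := valid_and0 (valid_and0 (valid_PS hS hc hh (m + 1)) (Sum.inr (Sum.inl 0)))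
    (Sum.inr (Sum.inr 0))
  have h2 : PSL S c m = (PS S c (m + 1) ∩ {z | z (Sum.inr (Sum.inl 0)) = 0}) ∩
      {z | z (Sum.inr (Sum.inr 0)) = 0} := by
    ext z
    simp only [PSL, Set.mem_inter_iff, Set.mem_ofPred_eq]
    tauto
  rw [h2]
  exact h1

theorem hom_shift2 {S : Set (Pt k ρ)} {w : ρ → ℤ} {d : ℕ} {r s : ℤ}
    {c : ℕ → Pt k ρ → AlgebraicClosure k} (hh : Hom S w d r s c) :
    Hom (Vc S c 2) w d (r + 1) (s + 1) (fun j => c (j + 2)) := by
  intro l hl z hz j
  have h1 := hh l hl z hz.1 (j + 2)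
  beta_reduce
  rw [h1]
  congr 2
  push_cast
  ring

theorem chiE_PSL1 {S : Set (Pt k ρ)} {w : ρ → ℤ} {d : ℕ} {β : Fin n → Option ρ}
    (hS : Valid f S w d β) {c : ℕ → Pt k ρ → AlgebraicClosure k} (hc : ∀ j, IsPF (c j)) {r s : ℤ}
    (hh : Hom S w d r s c) (m : ℕ) :
    M.χ _ (PSL S c (m + 1)) (wPS w r s (m + 1 + 1)) d (fun i => (β i).map Sum.inl) =
      M.χ _ (PS (Vc S c 2) (fun j => c (j + 2)) m) (wPS w (r + 1) (s + 1) m) d
        (fun i => (β i).map Sum.inl) * M.L ^ 2 := by
  have hP := valid_PS (valid_Vc hS hc hh 2) (fun j => hc (j + 2)) (hom_shift2 hh) m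
  have h0 := M.aff (κ := Fin 2) _ _ (Fin.cases ((m : ℤ) + 1 + r) fun _ => (m : ℤ) + 1 + s) d _ hP
  rw [Fintype.card_fin] at h0
  rw [← h0]
  refine isoD M (valid_PSL hS hc hh (m + 1)) (valid_prod hP _)
    (fun z => Sum.elim (Sum.elim (fun i => z (Sum.inl i)) (Sum.elim
      (fun a => z (Sum.inr (Sum.inl a.castSucc.succ)))
      (fun a => z (Sum.inr (Sum.inr a.castSucc.succ)))))
      (Fin.cases (z (Sum.inr (Sum.inl (Fin.last m).succ)))
        fun _ => z (Sum.inr (Sum.inr (Fin.last m).succ))))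
    (fun w => Sum.elim (fun i => w (Sum.inl (Sum.inl i))) (Sum.elim
      (Fin.cases 0 (Fin.lastCases (w (Sum.inr 0)) fun a => w (Sum.inl (Sum.inr (Sum.inl a)))))
      (Fin.cases 0 (Fin.lastCases (w (Sum.inr 1)) fun a => w (Sum.inl (Sum.inr (Sum.inr a)))))))
    (regularOn_poly (fun i => ?_) _) (regularOn_poly (fun i => ?_) _) ?_ ?_ ?_ ?_ ?_ ?_
  · rcases i with (i | i | i) | i
    · exact IsPF.coord _
    · exact IsPF.coord _
    · exact IsPF.coord _
    · refine Fin.cases ?_ (fun a => ?_) i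
      · exact IsPF.coord _
      · exact IsPF.coord _
  · rcases i with i | i | i
    · exact IsPF.coord _
    · refine Fin.cases ?_ (fun a => ?_) i
      · exact IsPF.zero
      · refine Fin.lastCases ?_ (fun a => ?_) a
        · simp only [Sum.elim_inr, Sum.elim_inl, Fin.cases_succ, Fin.lastCases_last]
          exact IsPF.coord _
        · simp only [Sum.elim_inr, Sum.elim_inl, Fin.cases_succ, Fin.lastCases_castSucc]
          exact IsPF.coord _
    · refine Fin.cases ?_ (fun a => ?_) i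
      · exact IsPF.zero
      · refine Fin.lastCases ?_ (fun a => ?_) a
        · simp only [Sum.elim_inr, Fin.cases_succ, Fin.lastCases_last]
          exact IsPF.coord _
        · simp only [Sum.elim_inr, Fin.cases_succ, Fin.lastCases_castSucc]
          exact IsPF.coord _
  · rintro z ⟨⟨h1, h1'⟩, h2, h3⟩
    have h2' : (fun a => z (Sum.inr (Sum.inl a))) 0 = 0 := h2
    have h3' : (fun a => z (Sum.inr (Sum.inr a))) 0 = 0 := h3
    refine ⟨⟨h1, fun j hj => ?_⟩, fun j hj => ?_⟩
    · obtain rfl | rfl : j = 0 ∨ j = 1 := by omega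
      · have := h1' 0 (by omega)
        rw [coeffL_zero _ _ h2' h3', add_zero] at this
        exact this
      · have := h1' 1 (by omega)
        rw [coeffL_one _ _ h2' h3', add_zero] at this
        exact this
    · have := h1' (j + 2) (by omega)
      rw [coeffL_succ _ _ h2' h3' j hj] at this
      exact this
  · rintro w ⟨⟨h1, h1'⟩, h2⟩
    refine ⟨⟨h1, fun j hj => ?_⟩, rfl, rfl⟩
    rcases j with _ | _ | j
    · rw [coeffL_zero _ _ rfl rfl, add_zero]
      exact h1' 0 (by omega)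
    · rw [coeffL_one _ _ rfl rfl, add_zero]
      exact h1' 1 (by omega)
    · rw [coeffL_succ _ _ rfl rfl j (by omega)]
      have := h2 j (by omega)
      simp only [Sum.elim_inr, Sum.elim_inl, Fin.lastCases_castSucc, Fin.cases_succ]
      exact this
  · rintro z ⟨⟨h1, h1'⟩, h2, h3⟩
    funext i
    rcases i with i | i | i
    · rfl
    · refine Fin.cases ?_ (fun a => ?_) i
      · exact h2.symm
      · refine Fin.lastCases ?_ (fun a => ?_) a
        · simp only [Sum.elim_inr, Sum.elim_inl, Fin.cases_succ, Fin.lastCases_last]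
          rfl
        · simp only [Sum.elim_inr, Sum.elim_inl, Fin.cases_succ, Fin.lastCases_castSucc]
    · refine Fin.cases ?_ (fun a => ?_) i
      · exact h3.symm
      · refine Fin.lastCases ?_ (fun a => ?_) a
        · simp only [Sum.elim_inr, Fin.cases_succ, Fin.lastCases_last]
          rfl
        · simp only [Sum.elim_inr, Fin.cases_succ, Fin.lastCases_castSucc, Sum.elim_inl]
  · rintro w -
    funext i
    rcases i with (i | i | i) | i
    · rfl
    · simp only [Sum.elim_inr, Sum.elim_inl, Fin.cases_succ, Fin.lastCases_castSucc]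
    · simp only [Sum.elim_inr, Sum.elim_inl, Fin.cases_succ, Fin.lastCases_castSucc]
    · fin_cases i
      · simp only [Sum.elim_inr, Sum.elim_inl, Fin.cases_succ, Fin.lastCases_last]
        rfl
      · show (Fin.cases _ _ (1 : Fin 2) : AlgebraicClosure k) = _
        rw [show (1 : Fin 2) = Fin.succ 0 from rfl]
        simp only [Sum.elim_inr, Fin.cases_succ, Fin.lastCases_last]
        rfl
  · intro z _
    rw [cbase_map, cbase_map, cbase_map]
    rfl
  · intro l _ z _
    funext i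
    rcases i with (i | i | i) | i
    · rfl
    · show l ^ ((((i.castSucc.succ : Fin (m + 1 + 1)) : ℕ) : ℤ) + r) * _ =
        l ^ (((i : ℕ) : ℤ) + (r + 1)) * _
      rw [Fin.val_succ, Fin.val_castSucc]
      congr 2
      push_cast
      ring
    · show l ^ ((((i.castSucc.succ : Fin (m + 1 + 1)) : ℕ) : ℤ) + s) * _ =
        l ^ (((i : ℕ) : ℤ) + (s + 1)) * _
      rw [Fin.val_succ, Fin.val_castSucc]
      congr 2
      push_cast
      ring
    · refine Fin.cases ?_ (fun a => ?_) i
      · show l ^ (((((Fin.last m).succ : Fin (m + 1 + 1)) : ℕ) : ℤ) + r) * _ =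
          l ^ ((m : ℤ) + 1 + r) * _
        rw [Fin.val_succ, Fin.val_last]
        push_cast
        rfl
      · show l ^ (((((Fin.last m).succ : Fin (m + 1 + 1)) : ℕ) : ℤ) + s) * _ =
          l ^ ((m : ℤ) + 1 + s) * _
        rw [Fin.val_succ, Fin.val_last]
        push_cast
        rfl

/-- **The class of the solutions with `y(0) = z(0) = 0`.** -/
theorem chiE_PSL (m : ℕ) {S : Set (Pt k ρ)} {w : ρ → ℤ} {d : ℕ} {β : Fin n → Option ρ}
    (hS : Valid f S w d β) {c : ℕ → Pt k ρ → AlgebraicClosure k} (hc : ∀ j, IsPF (c j)) {r s : ℤ}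
    (hh : Hom S w d r s c) :
    M.χ _ (PSL S c (m + 1)) (wPS w r s (m + 1 + 1)) d (fun i => (β i).map Sum.inl) =
      M.χ _ (Vc S c (m + 2)) w d β * M.L ^ (m + 2) +
      ∑ i ∈ Finset.range m, (M.L - 1) * M.L ^ (m + 1) * M.χ _ (Vc S c (i + 2)) w d β := by
  rw [chiE_PSL1 M hS hc hh, chiE_PS M m (valid_Vc hS hc hh 2) (fun j => hc (j + 2))
    (hom_shift2 hh)]
  simp only [Vc_Vc2]
  rcases m with _ | m
  · simp only [Finset.range_zero, Finset.sum_empty]
    ring
  · rw [add_mul, Finset.sum_mul]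
    have h4 : ∀ i, (M.L - 1) * M.L ^ (m + 1 - 1) * M.χ _ (Vc S c (i + 2)) w d β * M.L ^ 2 =
        (M.L - 1) * M.L ^ (m + 1 + 1) * M.χ _ (Vc S c (i + 2)) w d β := by
      intro i
      rw [Nat.add_sub_cancel]
      ring
    rw [Finset.sum_congr rfl fun i _ => h4 i]
    ring

end pair

end Pool.Agent.Q223.TE
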