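import Pool.Agent.Q223.TE.Jets
import Pool.Agent.Q223.TE.Gen
import Pool.Agent.W63.MEFin

/-!
# The equivariant series of `f + y z`
-/

set_option autoImplicit false
set_option linter.unusedSectionVars false
set_option linter.unusedVariables false

namespace Pool.Agent.Q223.TE

open MvPolynomial Pool.Agent.TH192.MT Pool.Agent.Q223.ID
open Pool.Agent.W428.MOT hiding wt
open Pool.Agent.W358.ME.EK0 (valid_prod valid_union)
open Pool.Agent.Q223.TW (ser geoS geoS_mul)
open Pool.Agent.Q223.TW.LK (TJ aeval_yz)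
open Pool.Agent.Q57.QE (wt valid_zero)
open Pool.Agent.Y229.MS (addyz CE ce_good)

section algebra

variable {R : Type} [CommRing R]

/-- the series -/
noncomputable def sr (uu : Rˣ) (m : ℕ) (J : ℕ → R) : PowerSeries R :=
  PowerSeries.mk fun d => if d = 0 then 0 else J d * (((uu⁻¹ : Rˣ) : R)) ^ (m * d)

theorem coeff_sr (uu : Rˣ) (m : ℕ) (J : ℕ → R) (d : ℕ) :
    PowerSeries.coeff d (sr uu m J) = if d = 0 then 0 else J d * (((uu⁻¹ : Rˣ) : R)) ^ (m * d) := by
  rw [sr, PowerSeries.coeff_mk]

/-- the algebra of the step -/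
theorem step_core (uu : Rˣ) (m : ℕ) (T : ℕ → ℕ → R) (A J J' : ℕ → R) (ee : R)
    (hTs : ∀ i N, i ≤ N + 1 → T i (N + 1) = T i N * ((uu : Rˣ) : R) ^ m) (hω : T 1 0 = 1)
    (hA' : ∀ d, T d d = A d + T (d + 1) d)
    (hJ : ∀ a, J' (a + 1) = J (a + 1) * ((uu : Rˣ) : R) ^ (a + 2) + ∑ i ∈ Finset.range a,
      (((uu : Rˣ) : R) - 1) * ((uu : Rˣ) : R) ^ (a + 1) * (T (i + 2) (a + 1) * ee)) :
    StepR uu ee (sr uu m J) (sr uu (m + 2) J') (sr uu m A) := by
  unfold StepR
  set Y : R := (((uu⁻¹ : Rˣ)) : R) with hY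
  set L : R := ((uu : Rˣ) : R) with hLdef
  have hLY : L * Y = 1 := Units.mul_inv _
  have hLYn : ∀ m, L ^ m * Y ^ m = 1 := fun m => by rw [← mul_pow, hLY, one_pow]
  set A' : ℕ → R := fun d => A d * Y ^ (m * d) with hA
  set b : ℕ → R := fun i => T i i * Y ^ (m * i) with hb
  have hTb : ∀ i j, T i (i + j) * Y ^ (m * (i + j)) = b i := by
    intro i j
    induction j with
    | zero => rfl
    | succ j ih =>
      rw [← ih, show i + (j + 1) = i + j + 1 by ring, hTs i (i + j) (by omega),
        show m * (i + j + 1) = m + m * (i + j) by ring, pow_add]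
      linear_combination (T i (i + j) * Y ^ (m * (i + j))) * hLYn m
  have hb1 : b 1 = 1 := by
    rw [hb]
    beta_reduce
    rw [hTs 1 0 le_rfl, hω, mul_one, one_mul, hLYn]
  have hbs : ∀ d, b (d + 1) = b d - A' d := by
    intro d
    have h1 := hA' d
    rw [hb, hA]
    beta_reduce
    rw [hTs (d + 1) d le_rfl, show m * (d + 1) = m + m * d by ring, pow_add]
    rw [h1]
    linear_combination (T (d + 1) d * Y ^ (m * d)) * hLYn m
  have hF : ∀ a, J' (a + 1) * Y ^ ((m + 2) * (a + 1)) =
      Y ^ (a + 1) * (L * (J (a + 1) * Y ^ (m * (a + 1))) +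
        (L - 1) * ee * ∑ i ∈ Finset.range a, b (i + 2)) := by
    intro a
    rw [hJ a, Finset.mul_sum]
    have h1 : ∀ i ∈ Finset.range a, (L - 1) * L ^ (a + 1) * (T (i + 2) (a + 1) * ee) *
        Y ^ ((m + 2) * (a + 1)) = Y ^ (a + 1) * ((L - 1) * ee * b (i + 2)) := by
      intro i hi
      have h2 := hTb (i + 2) (a + 1 - (i + 2))
      rw [Nat.add_sub_cancel' (by have := Finset.mem_range.1 hi; omega)] at h2
      rw [← h2, show (m + 2) * (a + 1) = m * (a + 1) + (a + 1) + (a + 1) by ring, pow_add, pow_add]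
      linear_combination ((L - 1) * ee * T (i + 2) (a + 1) * Y ^ (m * (a + 1)) *
        Y ^ (a + 1)) * hLYn (a + 1)
    rw [add_mul, Finset.sum_mul, Finset.sum_congr rfl h1, ← Finset.mul_sum,
      show (m + 2) * (a + 1) = m * (a + 1) + (a + 1) + (a + 1) by ring,
      pow_add Y (m * (a + 1) + (a + 1)) (a + 1), pow_add Y (m * (a + 1)) (a + 1),
      pow_succ L (a + 1)]
    rw [mul_add (Y ^ (a + 1))]
    rw [← Finset.mul_sum]
    linear_combination (J (a + 1) * Y ^ (m * (a + 1)) * L * Y ^ (a + 1)) * hLYn (a + 1)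
  set D : PowerSeries R := PowerSeries.mk fun d => Y ^ d * ∑ i ∈ Finset.range (d - 1),
    b (i + 2) with hD
  set B : PowerSeries R := PowerSeries.mk fun d => if d ≤ 1 then 0 else Y ^ d * b d with hB
  have r1 : (1 - PowerSeries.C Y * PowerSeries.X) * D = B := by
    ext d
    rcases d with _ | _ | d
    · rw [coeff_zero_lin, hD, hB, PowerSeries.coeff_mk, PowerSeries.coeff_mk]
      simp
    · rw [coeff_succ_lin, hD, hB, PowerSeries.coeff_mk, PowerSeries.coeff_mk,
        PowerSeries.coeff_mk]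
      simp
    · rw [coeff_succ_lin, hD, hB, PowerSeries.coeff_mk, PowerSeries.coeff_mk,
        PowerSeries.coeff_mk, if_neg (by omega), show d + 1 + 1 - 1 = d + 1 from rfl,
        show d + 1 - 1 = d from rfl, Finset.sum_range_succ _ d, pow_succ Y (d + 1)]
      ring
  have r2 : (1 - PowerSeries.C Y * PowerSeries.X) * B =
      PowerSeries.C Y * PowerSeries.X * (PowerSeries.C Y * PowerSeries.X -
        PowerSeries.rescale Y (sr uu m A)) := by
    ext d
    rcases d with _ | _ | d
    · rw [coeff_zero_lin, hB, PowerSeries.coeff_mk, if_pos (by omega), mul_assoc,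
        PowerSeries.coeff_C_mul, PowerSeries.coeff_zero_X_mul, mul_zero]
    · rw [coeff_succ_lin, hB, PowerSeries.coeff_mk, PowerSeries.coeff_mk, if_pos (by omega),
        if_pos (by omega), mul_assoc, PowerSeries.coeff_C_mul, PowerSeries.coeff_succ_X_mul,
        map_sub, PowerSeries.coeff_C_mul, PowerSeries.coeff_zero_X, PowerSeries.coeff_rescale,
        coeff_sr, if_pos rfl]
      ring
    · rw [coeff_succ_lin, hB, PowerSeries.coeff_mk, PowerSeries.coeff_mk, if_neg (by omega),
        mul_assoc, PowerSeries.coeff_C_mul, PowerSeries.coeff_succ_X_mul,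
        map_sub, PowerSeries.coeff_C_mul, PowerSeries.coeff_X, PowerSeries.coeff_rescale, coeff_sr,
        if_neg (Nat.succ_ne_zero d)]
      rcases d with _ | d
      · rw [if_pos (by omega), if_pos rfl, hbs 1, hb1, hA]
        ring
      · rw [if_neg (by omega), if_neg (by omega), hbs (d + 1 + 1), hA]
        ring
  have r3 : D = geoS Y * geoS Y * (PowerSeries.C Y * PowerSeries.X * (PowerSeries.C Y *
      PowerSeries.X - PowerSeries.rescale Y (sr uu m A))) := by
    rw [← r2, ← r1]
    have h1 := geoS_mul Y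
    linear_combination (-(geoS Y * (1 - PowerSeries.C Y * PowerSeries.X) * D) - D) * h1
  have r4 : sr uu (m + 2) J' = PowerSeries.C L * PowerSeries.rescale Y (sr uu m J) +
      PowerSeries.C ((L - 1) * ee) * D := by
    ext d
    rw [map_add, PowerSeries.coeff_C_mul, PowerSeries.coeff_C_mul,
      PowerSeries.coeff_rescale, coeff_sr, coeff_sr, hD, PowerSeries.coeff_mk]
    rcases d with _ | d
    · rw [if_pos rfl, if_pos rfl]
      simp
    · rw [if_neg (Nat.succ_ne_zero d), if_neg (Nat.succ_ne_zero d), hF,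
        show d + 1 - 1 = d from rfl]
      ring
  rw [r4, r3]

end algebra

section series

variable {k : Type} [Field k] {n : ℕ} {f : MvPolynomial (Fin n) k} {R : Type} [CommRing R]
  (M : EMeas f R) {m : ℕ}

/-- the class of the jets of order at least `i` modulo `t ^ (N + 1)` -/
noncomputable def TT (g : MvPolynomial (Fin m) k) (W : Set (Pt k (Fin m))) (e : Fin n → Fin m)
    (i N : ℕ) : R := M.χ _ (TJ g W i N) 0 1 (bs e N)

/-- the class of the jets of order `N` -/
noncomputable def AA (g : MvPolynomial (Fin m) k) (W : Set (Pt k (Fin m))) (e : Fin n → Fin m)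
    (N : ℕ) : R := M.χ _ (JetS g W {c | c ≠ 0} N) 0 1 (bs e N)

/-- the class of the jets with `g(φ) = t ^ N` -/
noncomputable def OO (g : MvPolynomial (Fin m) k) (W : Set (Pt k (Fin m))) (e : Fin n → Fin m)
    (N : ℕ) : R := M.χ _ (JetS g W {1} N) (wt m N) N (bs e N)

theorem valid_TJ0 {W : Set (Pt k (Fin m))} {e : Fin n → Fin m} (h : PD f W e)
    (g : MvPolynomial (Fin m) k) (i N : ℕ) : Valid f (TJ g W i N) 0 1 (bs e N) :=
  valid_zero (valid_TJ (N := N) h g i Nat.one_pos)

theorem valid_A0 {W : Set (Pt k (Fin m))} {e : Fin n → Fin m} (h : PD f W e)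
    (g : MvPolynomial (Fin m) k) (N : ℕ) :
    Valid f (JetS g W {c | c ≠ 0} N) 0 1 (bs e N) :=
  valid_zero (valid_A (N := N) h g Nat.one_pos)

theorem TT_succ {W : Set (Pt k (Fin m))} {e : Fin n → Fin m} (h : PD f W e)
    (g : MvPolynomial (Fin m) k) (i N : ℕ) (hi : i ≤ N + 1) :
    TT M g W e i (N + 1) = TT M g W e i N * M.L ^ m := by
  have h2 := splitD M (Equiv.ofBijective _ (lastE_bij (Fin m) N)) (valid_TJ0 h g i (N + 1))
    (β' := bs e N) (T := TJ g W i N) (valid_TJ0 h g i N) (fun z => ?_) (fun z _ => rfl)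
  · rw [Fintype.card_fin] at h2
    exact h2
  · have h1 : ∀ k' ≤ N, PowerSeries.coeff k' (aeval (ar z) g) =
        PowerSeries.coeff k' (aeval (ar fun i => z ((Equiv.ofBijective _ (lastE_bij (Fin m) N))
          (Sum.inl i))) g) := by
      refine coeff_congr g N _ _ fun i k' hk => ?_
      rw [coeff_ar' _ _ _ (by omega), coeff_ar' _ _ _ (by omega)]
      rfl
    have h0 : (fun i => z (i, (0 : Fin (N + 1 + 1)))) = fun i =>
        z ((Equiv.ofBijective _ (lastE_bij (Fin m) N)) (Sum.inl (i, 0))) := by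
      funext i
      rfl
    constructor
    · rintro ⟨g', h'⟩
      refine ⟨by rw [h0] at g'; exact g', fun k' hk => ?_⟩
      rw [← h1 k' (by omega)]
      exact h' k' hk
    · rintro ⟨g', h'⟩
      refine ⟨by rw [h0]; exact g', fun k' hk => ?_⟩
      rw [h1 k' (by omega)]
      exact h' k' hk

theorem TT_diag {W : Set (Pt k (Fin m))} {e : Fin n → Fin m} (h : PD f W e)
    (g : MvPolynomial (Fin m) k) (N : ℕ) :
    TT M g W e N N = AA M g W e N + TT M g W e (N + 1) N := by
  unfold TT AA
  rw [← M.add _ _ _ _ _ (valid_A0 h g N) (valid_TJ0 h g (N + 1) N)]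
  · congr 1
    ext z
    simp only [TJ, JetS, Set.mem_union, Set.mem_ofPred_eq]
    constructor
    · rintro ⟨h0, h⟩
      by_cases h1 : PowerSeries.coeff N (aeval (ar z) g) = 0
      · refine Or.inr ⟨h0, fun k hk => ?_⟩
        rcases Nat.lt_succ_iff_lt_or_eq.1 hk with h2 | rfl
        · exact h k h2
        · exact h1
      · exact Or.inl ⟨h0, h, h1⟩
    · rintro (h | h)
      · exact ⟨h.1, h.2.1⟩
      · exact ⟨h.1, fun k hk => h.2 k (by omega)⟩
  · rw [Set.disjoint_left]
    rintro z ⟨-, -, hj⟩ h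
    exact hj (h.2 N (Nat.lt_succ_self N))

/-- the class of the origins is preserved -/
theorem TT_yz {W : Set (Pt k (Fin m))} {e : Fin n → Fin m} (h : PD f W e)
    (g : MvPolynomial (Fin m) k) :
    TT M (addyz g) (yz0 W) (fun i => Fin.castAdd 2 (e i)) 1 0 = TT M g W e 1 0 := by
  have key : ∀ z : Pt k (Fin (m + 2) × Fin (0 + 1)), z (Fin.natAdd m 0, 0) = 0 →
      PowerSeries.coeff 0 (aeval (ar z) (addyz g)) =
      PowerSeries.coeff 0 (aeval (ar fun p : Fin m × Fin (0 + 1) => z (Fin.castAdd 2 p.1, p.2)) g) := by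
    intro z hz
    have e1 : PowerSeries.coeff 0 (ser fun a => z (Fin.natAdd m 0, a)) = 0 := by
      rw [Pool.Agent.Q223.TW.coeff_ser _ _ (Nat.succ_pos 0)]
      exact hz
    rw [aeval_yz, map_add, PowerSeries.coeff_zero_eq_constantCoeff_apply
      (ser (fun a => z (Fin.natAdd m 0, a)) * _), map_mul,
      ← PowerSeries.coeff_zero_eq_constantCoeff_apply, e1, zero_mul, add_zero]
  unfold TT
  refine isoD M (valid_TJ0 h.yz0 _ 1 0) (valid_TJ0 h g 1 0)
    (fun z p => z (Fin.castAdd 2 p.1, p.2))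
    (fun w p => Fin.addCases (fun a => w (a, p.2)) (fun _ => 0) p.1)
    (regularOn_poly (fun i => IsPF.coord _) _) (regularOn_poly (fun i => ?_) _) ?_ ?_ ?_ ?_ ?_ ?_
  · obtain ⟨i, a⟩ := i
    refine Fin.addCases (fun i => ?_) (fun b => ?_) i
    · simp only [Fin.addCases_left]
      exact IsPF.coord _
    · simp only [Fin.addCases_right]
      exact IsPF.zero
  · rintro z ⟨⟨h1, h2, h3⟩, h4⟩
    refine ⟨h1, fun j hj => ?_⟩
    obtain rfl : j = 0 := by omega
    have h5 := h4 0 Nat.one_pos
    rw [key z h2] at h5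
    exact h5
  · rintro w ⟨h1, h4⟩
    refine ⟨⟨?_, ?_, ?_⟩, fun j hj => ?_⟩
    · have e2 : (fun i : Fin m => (fun p : Fin (m + 2) × Fin (0 + 1) => (Fin.addCases
          (motive := fun _ => AlgebraicClosure k) (fun a => w (a, p.2))
          (fun _ => 0) p.1)) (Fin.castAdd 2 i, 0)) = fun i => w (i, 0) := by
        funext i
        simp only [Fin.addCases_left]
      show (fun i : Fin m => (fun p : Fin (m + 2) × Fin (0 + 1) => (Fin.addCases
          (motive := fun _ => AlgebraicClosure k) (fun a => w (a, p.2))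
          (fun _ => 0) p.1)) (Fin.castAdd 2 i, 0)) ∈ W
      rw [e2]
      exact h1
    · simp only [Fin.addCases_right]
    · simp only [Fin.addCases_right]
    · obtain rfl : j = 0 := by omega
      rw [key _ (by simp only [Fin.addCases_right])]
      simp only [Fin.addCases_left]
      exact h4 0 Nat.one_pos
  · rintro z ⟨⟨h1, h2, h3⟩, h4⟩
    funext p
    obtain ⟨i, a⟩ := p
    have ha : a = 0 := Fin.ext (by have := a.2; omega)
    rw [ha]
    refine Fin.addCases (fun i => ?_) (fun b => ?_) i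
    · simp only [Fin.addCases_left]
    · simp only [Fin.addCases_right]
      fin_cases b
      · exact h2.symm
      · exact h3.symm
  · intro w _
    funext p
    simp only [Fin.addCases_left]
  · intro z _
    rfl
  · intro l _ z _
    rfl

variable {M}

/-- **The step for the series of the jets with `g(φ) = t ^ N`.** -/
theorem step_O {uu : Rˣ} (hL : M.L = ((uu : Rˣ) : R)) {W : Set (Pt k (Fin m))}
    {e : Fin n → Fin m} (h : PD f W e) (g : MvPolynomial (Fin m) k)
    (hω : TT M g W e 1 0 = 1) :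
    StepR uu 1 (sr uu m (OO M g W e))
      (sr uu (m + 2) (OO M (addyz g) (yz0 W) fun i => Fin.castAdd 2 (e i)))
      (sr uu m (AA M g W e)) := by
  refine step_core uu m (TT M g W e) (AA M g W e) _ _ 1 (fun i N hi => ?_) hω (TT_diag M h g)
    fun a => ?_
  · rw [TT_succ M h g i N hi, hL]
  · have h1 := chi_one_pair M h g a
    rw [hL] at h1
    refine h1.trans ?_
    congr 1
    refine Finset.sum_congr rfl fun i _ => ?_
    rw [mul_one]
    rfl

/-- **The step for the series of the jets of order `N`.** -/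
theorem step_A {uu : Rˣ} (hL : M.L = ((uu : Rˣ) : R)) {W : Set (Pt k (Fin m))}
    {e : Fin n → Fin m} (h : PD f W e) (g : MvPolynomial (Fin m) k)
    (hω : TT M g W e 1 0 = 1) :
    StepR uu (((uu : Rˣ) : R) - 1) (sr uu m (AA M g W e))
      (sr uu (m + 2) (AA M (addyz g) (yz0 W) fun i => Fin.castAdd 2 (e i)))
      (sr uu m (AA M g W e)) := by
  refine step_core uu m (TT M g W e) (AA M g W e) _ _ _ (fun i N hi => ?_) hω (TT_diag M h g)
    fun a => ?_
  · rw [TT_succ M h g i N hi, hL]
  · have h1 := chi_ne_pair M h g a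
    rw [hL] at h1
    exact h1

end series

end Pool.Agent.Q223.TE
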