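import Pool.Agent.W358.ME.EK0

/-!
# Project TE (helper223, MP_b48657_ag): the equivariant motivic monodromy conjecture, reduction to
trilinear polynomials: statement of the lemma PULL
-/

set_option autoImplicit false

namespace Pool.Agent.Q223.TE

open MvPolynomial Pool.Agent.W428.MOT

/-- The geometric points of the fibre product over `X_s(F)` of `S → X_s(F)` (given by the coordinates `β`)
and of `X_s(f) → X_s(F)`, `x ↦ Φ(x)`. -/
def pbSet {k : Type} [Field k] {m n : ℕ} (f : MvPolynomial (Fin n) k)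
    (Φ : Fin m → MvPolynomial (Fin n) k) {ι : Type} (S : Set (Pt k ι)) (β : Fin m → Option ι) :
    Set (Pt k (ι ⊕ Fin n)) :=
  {z | (fun i => z (Sum.inl i)) ∈ S ∧ aeval (fun i => z (Sum.inr i)) f = 0 ∧
    cbase β (fun i => z (Sum.inl i)) = fun j => aeval (fun i => z (Sum.inr i)) (Φ j)}

/-- JOB PULL. The pull-back `K₀^μ̂(Var_{X_s(F)}) → K₀^μ̂(Var_{X_s(f)})` along a polynomial map `Φ` which
takes `X_s(f)` into `X_s(F)`.

Proof.  For `V : MuVar F` let `V' : MuVar f` be the fibre product: `N' = V.N + n` (points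
`z = (v, x)`, `v = z ∘ castAdd`, `x = z ∘ natAdd`), `S' = {(v, x) | v ∈ V.S, f(x) = 0, V.π v = Φ(x)}`,
`π' (v, x) = x`, `d' = V.d`, `act' l (v, x) = (V.act l v, x)`.  `S'` is constructible: by `V.regular_π` every
coordinate of `V.π` is `P / Q` on `V.S` with `Q ≠ 0` there, so the last condition is `P(v) = Φ_j(x) Q(v)`.
The ring homomorphism is `Ideal.Quotient.lift` of `eval₂Hom (Int.castRingHom _) fun V => K0Mu.mk V'`, as in
`psi0` of `Pool/Agent/Q57/QE/Gm.lean` (read `rel_zero`, `triv_iso`, `triv_scissors`, `triv_prod`,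
`triv_one` there: the same pattern).  The relations: `iso`: `(φ v, x)`, `(ψ w, x)`; `scissors`: the
pull-backs of the two restrictions are the restrictions of `V'` up to the identity map (`mk_iso` with
`id`); `prod`: `p' (z, x) = (p z, x)`, `q' = (q z, x)`, `j' ((v, x), (w, x')) = (j (v, w), x)`; `one`:
`{(y, x) | F(y) = 0, f(x) = 0, y = Φ(x)} ≅ {x | f(x) = 0}`; `affine`: `V' ← P'` is an affine lift with the same
`q`, `j' ((v, x), w) = (j (v, w), x)`, and `(aff F r)' ≅ aff f r`.  The last one with `r = 1` gives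
`P (LMu F) = LMu f`.  For `diagVar hV` the pull-back is `diagVar hV'` up to a bijection of the coordinates
(`Fintype.equivFin ι ⊕ id`), `mk_iso`.  Useful: `mk_iso`, `mk_eq_of_rel`, `reg_rename`, `dact_fin`, `mk_affine`
in `Pool/Agent/W358/ME/EK0.lean` (its theorems `iso`, `aff` show how to treat the coordinates of `diagVar`),
`Constr.preimage`, `Constr.and`, `Constr.all`, `IsPF`, `regularOn_poly` in `Pool/Agent/W428/MOT/Tools.lean`. -/
def S_PULL : Prop := ∀ (k : Type) [Field k] {m n : ℕ} (F : MvPolynomial (Fin m) k)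
  (f : MvPolynomial (Fin n) k) (Φ : Fin m → MvPolynomial (Fin n) k),
  (∀ x : Pt k (Fin n), aeval x f = 0 → aeval (fun j => aeval x (Φ j)) F = 0) →
  ∃ P : K0Mu F →+* K0Mu f, P (LMu F) = LMu f ∧
    ∀ (ι : Type) [Fintype ι] (S : Set (Pt k ι)) (ρ : ι → ℤ) (d : ℕ) (β : Fin m → Option ι)
      (hV : Valid F S ρ d β)
      (hV' : Valid f (pbSet f Φ S β) (Sum.elim ρ 0) d (fun i => some (Sum.inr i))),
      P (K0Mu.mk (diagVar hV)) = K0Mu.mk (diagVar hV')

end Pool.Agent.Q223.TE
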