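import Pool.Agent.Q223.TE.Series
import Pool.Agent.Q184.TE.Pull
import Pool.Agent.Q223.TW.PtRed

/-!
# The series of the programs and the series of `f`
-/

set_option autoImplicit false
set_option linter.unusedSectionVars false
set_option linter.unusedVariables false

namespace Pool.Agent.Q223.TE

open MvPolynomial Pool.Agent.TH192.MT Pool.Agent.Q223.ID
open Pool.Agent.W428.MOT hiding wt
open Pool.Agent.Q223.TW.LK (TJ)
open Pool.Agent.Q57.QE (wt valid_zero)
open Pool.Agent.Y229.MS (addyz itr)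
open Pool.Agent.W63.MEFin (mapEMeas)

variable {k : Type} [Field k] {n : ℕ}

/-- the origins of the stabilization -/
def WI (f : MvPolynomial (Fin n) k) : (κ : ℕ) → Set (Pt k (Fin (n + 2 * κ)))
  | 0 => {x | aeval x f = 0}
  | κ + 1 => yz0 (WI f κ)

/-- the coordinates of `f` -/
def eI (n : ℕ) : (κ : ℕ) → Fin n → Fin (n + 2 * κ)
  | 0 => id
  | κ + 1 => fun i => Fin.castAdd 2 (eI n κ i)

/-- the insertion -/
def ins {A : Type} [Zero A] (x : Fin n → A) : (κ : ℕ) → Fin (n + 2 * κ) → A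
  | 0 => x
  | κ + 1 => fun j => Fin.addCases (m := n + 2 * κ) (n := 2) (motive := fun _ => A) (ins x κ)
      (fun _ => 0) j

theorem ins_cast {A : Type} [Zero A] (x : Fin n → A) (κ : ℕ) (i : Fin (n + 2 * κ)) :
    ins x (κ + 1) (Fin.castAdd 2 i) = ins x κ i := by
  show Fin.addCases (m := n + 2 * κ) (n := 2) (motive := fun _ => A) (ins x κ)
      (fun _ => 0) (Fin.castAdd 2 i) = _
  rw [Fin.addCases_left]

theorem ins_nat {A : Type} [Zero A] (x : Fin n → A) (κ : ℕ) (i : Fin 2) :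
    ins x (κ + 1) (Fin.natAdd (n + 2 * κ) i) = 0 := by
  show Fin.addCases (m := n + 2 * κ) (n := 2) (motive := fun _ => A) (ins x κ)
      (fun _ => 0) (Fin.natAdd (n + 2 * κ) i) = _
  rw [Fin.addCases_right]

theorem ins_eI {A : Type} [Zero A] (x : Fin n → A) (κ : ℕ) (i : Fin n) :
    ins x κ (eI n κ i) = x i := by
  induction κ with
  | zero => rfl
  | succ κ ih => exact (ins_cast x κ _).trans ih

theorem mem_WI (f : MvPolynomial (Fin n) k) (κ : ℕ) (w : Pt k (Fin (n + 2 * κ))) :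
    w ∈ WI f κ ↔ w = ins (fun i => w (eI n κ i)) κ ∧ aeval (fun i => w (eI n κ i)) f = 0 := by
  induction κ with
  | zero => exact ⟨fun h => ⟨rfl, h⟩, fun h => h.2⟩
  | succ κ ih =>
    have ih' := ih fun i => w (Fin.castAdd 2 i)
    constructor
    · rintro ⟨h1, h2, h3⟩
      have h4 := ih'.1 h1
      refine ⟨?_, h4.2⟩
      funext j
      revert j
      show ∀ j : Fin ((n + 2 * κ) + 2), w j = ins (fun i => w (eI n (κ + 1) i)) (κ + 1) j
      intro j
      refine Fin.addCases (fun i => ?_) (fun i => ?_) j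
      · rw [ins_cast]
        exact congrFun h4.1 i
      · rw [ins_nat]
        fin_cases i
        · exact h2
        · exact h3
    · rintro ⟨h1, h2⟩
      have e1 : ∀ i, w (Fin.castAdd 2 i) = ins (fun i => w (eI n (κ + 1) i)) κ i := fun i =>
        (congrFun h1 (Fin.castAdd 2 i)).trans (ins_cast _ κ i)
      have e2 : ∀ i : Fin 2, w (Fin.natAdd (n + 2 * κ) i) = 0 := fun i =>
        (congrFun h1 (Fin.natAdd (n + 2 * κ) i)).trans (ins_nat _ κ i)
      exact ⟨ih'.2 ⟨funext e1, h2⟩, e2 0, e2 1⟩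

theorem pd_WI (f : MvPolynomial (Fin n) k) (κ : ℕ) : PD f (WI f κ) (eI n κ) := by
  induction κ with
  | zero => exact ⟨Constr.zero f, fun w hw => hw⟩
  | succ κ ih => exact ih.yz0

theorem aeval_ins (x : Pt k (Fin n)) (κ : ℕ) (j : Fin (n + 2 * κ)) :
    aeval x (ins (X : Fin n → MvPolynomial (Fin n) k) κ j) = ins x κ j := by
  induction κ with
  | zero => exact aeval_X _ _
  | succ κ ih =>
    revert j
    show ∀ j : Fin ((n + 2 * κ) + 2), aeval x (ins (X : Fin n → MvPolynomial (Fin n) k) (κ + 1) j) =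
      ins x (κ + 1) j
    intro j
    refine Fin.addCases (fun i => ?_) (fun i => ?_) j
    · rw [ins_cast, ins_cast]
      exact ih i
    · rw [ins_nat, ins_nat, map_zero]

/-- the constant term -/
theorem coeff_zero_ar {m N : ℕ} (z : Pt k (Fin m × Fin (N + 1))) (g : MvPolynomial (Fin m) k) :
    PowerSeries.coeff 0 (aeval (ar z) g) = aeval (fun i => z (i, 0)) g := by
  induction g using MvPolynomial.induction_on with
  | C a =>
    rw [algHom_C, algHom_C, PowerSeries.algebraMap_apply, PowerSeries.coeff_zero_C]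
  | add p q hp hq => rw [map_add, map_add, map_add, hp, hq]
  | mul_X p i hp =>
    have e1 : aeval (ar z) (p * X i) = aeval (ar z) p * ar z i := by
      rw [map_mul, aeval_X]
    have e2 : aeval (fun i => z (i, (0 : Fin (N + 1)))) (p * X i) =
        aeval (fun i => z (i, (0 : Fin (N + 1)))) p * z (i, 0) := by
      rw [map_mul, aeval_X]
    rw [e1, e2, ← hp]
    simp only [PowerSeries.coeff_zero_eq_constantCoeff_apply, map_mul]
    congr 1

section base

variable {R : Type} [CommRing R] (f : MvPolynomial (Fin n) k)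

/-- the class of the origins -/
theorem TT_one (M : EMeas f R) (h : TT M f (WI f 0) (eI n 0) 1 0 = 1) (κ : ℕ) :
    TT M (itr f κ) (WI f κ) (eI n κ) 1 0 = 1 := by
  induction κ with
  | zero => exact h
  | succ κ ih => exact (TT_yz M (pd_WI f κ) (itr f κ)).trans ih

/-- **The recursion.** -/
theorem rec_TE (M : EMeas f R) {uu : Rˣ} (hL : M.L = ((uu : Rˣ) : R))
    (h : TT M f (WI f 0) (eI n 0) 1 0 = 1) :
    RecR uu fun j => fstR uu * sr uu (n + 2 * j) (OO M (itr f j) (WI f j) (eI n j)) :=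
  rec_of (fun j => step_O hL (pd_WI f j) (itr f j) (TT_one f M h j))
    (fun j => step_A hL (pd_WI f j) (itr f j) (TT_one f M h j))

end base

section pull

variable (f : MvPolynomial (Fin n) k)

/-- the base is `X_s` -/
theorem cls_base {ι : Type} [Fintype ι] {S : Set (Pt k ι)} {β : Fin n → Option ι}
    (hV : Valid f S 0 1 β) (a : Fin n → ι) (hβ : ∀ i, β i = some (a i)) (ha : Function.Surjective a)
    (hS : ∀ z, z ∈ S ↔ aeval (fun i => z (a i)) f = 0) (b : ι → Fin n) (hab : ∀ i, a (b i) = i)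
    (hba : ∀ i, b (a i) = i) :
    K0Mu.mk (diagVar hV) = 1 := by
  have h1 : K0Mu.mk (diagVar hV) = K0Mu.mk (MuVar.base f) := by
    refine Pool.Agent.W358.ME.EK0.mk_iso (diagVar hV) (MuVar.base f)
      (fun z i => z (Fintype.equivFin ι (a i))) (fun w j => w (b ((Fintype.equivFin ι).symm j))) ?_
    exact
      { regular := regularOn_poly (fun i => IsPF.coord _) _
        regular' := regularOn_poly (fun i => IsPF.coord _) _
        mapsTo := fun z hz => (hS _).1 hz
        mapsTo' := fun w hw => (hS _).2 (by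
          simp only [Equiv.symm_apply_apply, hba]
          exact hw)
        left_inv := fun z _ => by
          funext j
          simp only [hab, Equiv.apply_symm_apply]
        right_inv := fun w _ => by
          funext i
          simp only [Equiv.symm_apply_apply, hba]
        overBase := fun z _ => by
          funext i
          show z (Fintype.equivFin ι (a i)) = (β i).elim 0 _
          rw [hβ]
          rfl
        equivariant := fun l _ z _ => by
          funext i
          show l ^ (0 : ℤ) * _ = _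
          rw [zpow_zero, one_mul]
          rfl }
  rw [h1, ← Pool.Agent.W358.ME.EK0.mk_aff_zero]
  refine (Pool.Agent.W358.ME.EK0.mk_iso (MuVar.aff f 0) (MuVar.base f) (fun z => z) (fun z => z)
    ?_).symm
  exact
    { regular := regularOn_poly (fun i => IsPF.coord i) _
      regular' := regularOn_poly (fun i => IsPF.coord i) _
      mapsTo := fun z hz => hz
      mapsTo' := fun z hz => hz
      left_inv := fun _ _ => rfl
      right_inv := fun _ _ => rfl
      overBase := fun _ _ => rfl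
      equivariant := fun _ _ _ _ => rfl }

variable {κ : ℕ} {F : MvPolynomial (Fin (n + (κ + κ))) k}
  (Ψ : MvPolynomial (Fin (n + 2 * κ)) k ≃ₐ[k] MvPolynomial (Fin (n + (κ + κ))) k)

/-- the map `X_s(f) → X_s(F)` -/
noncomputable def Ph (j : Fin (n + (κ + κ))) : MvPolynomial (Fin n) k :=
  aeval (ins (X : Fin n → MvPolynomial (Fin n) k) κ) (Ψ.symm (X j))

theorem aeval_Ph (x : Pt k (Fin n)) (j : Fin (n + (κ + κ))) :
    aeval x (Ph Ψ j) = aeval (ins x κ) (Ψ.symm (X j)) := by
  unfold Ph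
  have e : (aeval x : MvPolynomial (Fin n) k →ₐ[k] AlgebraicClosure k).comp
      (aeval (ins (X : Fin n → MvPolynomial (Fin n) k) κ)) = aeval (ins x κ) := by
    apply MvPolynomial.algHom_ext
    intro i
    rw [AlgHom.comp_apply, aeval_X, aeval_X, aeval_ins]
  exact congrArg (fun φ : MvPolynomial (Fin (n + 2 * κ)) k →ₐ[k] AlgebraicClosure k =>
    φ (Ψ.symm (X j))) e

/-- the composition with `Ψ` -/
theorem aeval_PhΨ (x : Pt k (Fin n)) (g : MvPolynomial (Fin (n + 2 * κ)) k) :
    aeval (fun j => aeval x (Ph Ψ j)) (Ψ g) = aeval (ins x κ) g := by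
  have e : (aeval fun j => aeval x (Ph Ψ j)) =
      (aeval (ins x κ) : MvPolynomial (Fin (n + 2 * κ)) k →ₐ[k] AlgebraicClosure k).comp
        (Ψ.symm : MvPolynomial (Fin (n + (κ + κ))) k →ₐ[k] MvPolynomial (Fin (n + 2 * κ)) k) := by
    apply MvPolynomial.algHom_ext
    intro j
    rw [aeval_X, aeval_Ph]
    rfl
  rw [e]
  show aeval (ins x κ) (Ψ.symm (Ψ g)) = _
  rw [AlgEquiv.symm_apply_apply]

theorem eval_itr (x : Pt k (Fin n)) (h0 : aeval x f = 0) (κ : ℕ) :
    aeval (ins x κ) (itr f κ) = 0 := by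
  induction κ with
  | zero => exact h0
  | succ κ ih =>
    show aeval (ins x (κ + 1)) (addyz (itr f κ)) = 0
    unfold addyz
    rw [map_add, map_mul, aeval_X, aeval_X, aeval_rename]
    have e1 : (ins x (κ + 1) ∘ Fin.castAdd 2) = ins x κ := funext fun i => ins_cast x κ i
    have e2 : (ins x (κ + 1) : Fin ((n + 2 * κ) + 2) → AlgebraicClosure k)
        (Fin.natAdd (n + 2 * κ) (0 : Fin 2)) = 0 := ins_nat x κ 0
    rw [e1, ih]
    refine (zero_add _).trans ?_
    exact (congrArg (fun a => a * ins x (κ + 1) (Fin.natAdd (n + 2 * κ) (1 : Fin 2))) e2).trans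
      (zero_mul _)

theorem Ph_zero (hΨ : Ψ (itr f κ) = F) (x : Pt k (Fin n)) (h0 : aeval x f = 0) :
    aeval (fun j => aeval x (Ph Ψ j)) F = 0 := by
  rw [← hΨ, aeval_PhΨ]
  exact eval_itr f x h0 κ

/-- the fibre product is a variety with diagonal action -/
theorem valid_pb (N : ℕ) (hN : 0 < N) :
    Valid f (pbSet f (Ph Ψ) (Pool.Agent.W428.MOT.JetE F N) (fun i => some (i, 0)))
      (Sum.elim (fun p : Fin (n + (κ + κ)) × Fin (N + 1) => ((p.2 : ℕ) : ℤ)) 0) N
      (fun i => some (Sum.inr i)) := by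
  have hV := jetValid F N hN
  refine ⟨?_, hN, ?_, ?_, ?_⟩
  · refine Constr.and (hV.constr.preimage (fun z : Pt k ((Fin (n + (κ + κ)) × Fin (N + 1)) ⊕ Fin n) =>
      fun i => z (Sum.inl i)) fun i => IsPF.coord _) (Constr.and ?_ ?_)
    · exact Constr.eqz ((IsPF.poly f).comp (fun z : Pt k ((Fin (n + (κ + κ)) × Fin (N + 1)) ⊕ Fin n) =>
        fun i => z (Sum.inr i)) fun i => IsPF.coord _)
    · have h1 : {z : Pt k ((Fin (n + (κ + κ)) × Fin (N + 1)) ⊕ Fin n) |
          cbase (fun i => some (i, (0 : Fin (N + 1)))) (fun i => z (Sum.inl i)) =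
            fun j => aeval (fun i => z (Sum.inr i)) (Ph Ψ j)} =
          {z | ∀ j, z (Sum.inl (j, 0)) = aeval (fun i => z (Sum.inr i)) (Ph Ψ j)} := by
        ext z
        exact ⟨fun h j => congrFun h j, fun h => funext h⟩
      rw [h1]
      exact Constr.all fun j => Constr.eq (IsPF.coord _) ((IsPF.poly (Ph Ψ j)).comp
        (fun z : Pt k ((Fin (n + (κ + κ)) × Fin (N + 1)) ⊕ Fin n) =>
        fun i => z (Sum.inr i)) fun i => IsPF.coord _)
  · rintro l hl z ⟨h1, h2, h3⟩
    have e1 : (fun i => dact (Sum.elim (fun p : Fin (n + (κ + κ)) × Fin (N + 1) =>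
        ((p.2 : ℕ) : ℤ)) 0) l z (Sum.inr i)) = fun i => z (Sum.inr i) := by
      funext i
      show l ^ (0 : ℤ) * z (Sum.inr i) = _
      rw [zpow_zero, one_mul]
    refine ⟨hV.stable l hl _ h1, ?_, ?_⟩
    · rw [e1]
      exact h2
    · rw [e1, ← h3]
      funext j
      show l ^ (((0 : Fin (N + 1)) : ℕ) : ℤ) * z (Sum.inl (j, 0)) = z (Sum.inl (j, 0))
      simp
  · rintro z ⟨h1, h2, h3⟩
    exact h2
  · intro i j h
    rw [Option.some.injEq] at h
    rw [← h]
    rfl

/-- **The class of the pull-back.** -/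
theorem cls_pb (M : EMeas f (K0Mu f)) (hM : ∀ (ι : Type) [Fintype ι] (S : Set (Pt k ι)) (ρ : ι → ℤ)
      (d : ℕ) (β : Fin n → Option ι) (h : Valid f S ρ d β), M.χ ι S ρ d β = K0Mu.mk (diagVar h))
    (hΨ : Ψ (itr f κ) = F) (N : ℕ) (hN : 0 < N) :
    K0Mu.mk (diagVar (valid_pb f (F := F) Ψ N hN)) =
      OO M (itr f κ) (WI f κ) (eI n κ) N := by
  have hΨ' : ∀ g, (Ψ : MvPolynomial (Fin (n + 2 * κ)) k →ₐ[k] MvPolynomial (Fin (n + (κ + κ))) k)
      ((Ψ.symm : MvPolynomial (Fin (n + (κ + κ))) k →ₐ[k] MvPolynomial (Fin (n + 2 * κ)) k) g) = g :=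
    fun g => Ψ.apply_symm_apply g
  have hΨ'' : ∀ g, (Ψ.symm : MvPolynomial (Fin (n + (κ + κ))) k →ₐ[k]
      MvPolynomial (Fin (n + 2 * κ)) k)
      ((Ψ : MvPolynomial (Fin (n + 2 * κ)) k →ₐ[k] MvPolynomial (Fin (n + (κ + κ))) k) g) = g :=
    fun g => Ψ.symm_apply_apply g
  have hF : (Ψ.symm : MvPolynomial (Fin (n + (κ + κ))) k →ₐ[k]
      MvPolynomial (Fin (n + 2 * κ)) k) F = itr f κ := by
    rw [← hΨ]
    exact Ψ.symm_apply_apply _
  have hF' : (Ψ : MvPolynomial (Fin (n + 2 * κ)) k →ₐ[k] MvPolynomial (Fin (n + (κ + κ))) k)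
      (itr f κ) = F := hΨ
  rw [← hM]
  unfold OO
  -- origins
  have org : ∀ z ∈ pbSet f (Ph Ψ) (Pool.Agent.W428.MOT.JetE F N) (fun i => some (i, 0)),
      ∀ i, Tm (Ψ : MvPolynomial (Fin (n + 2 * κ)) k →ₐ[k] MvPolynomial (Fin (n + (κ + κ))) k) N
        (fun p => z (Sum.inl p)) (i, 0) = ins (fun i => z (Sum.inr i)) κ i := by
    rintro z ⟨h1, h2, h3⟩ i
    show PowerSeries.coeff 0 (aeval (ar fun p => z (Sum.inl p)) (Ψ (X i))) = _
    rw [coeff_zero_ar]
    have h4 : (fun j => z (Sum.inl (j, (0 : Fin (N + 1))))) =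
        fun j => aeval (fun i => z (Sum.inr i)) (Ph Ψ j) := h3
    rw [h4, aeval_PhΨ, aeval_X]
  have orgW : ∀ y ∈ JetS (itr f κ) (WI f κ) {1} N, ∀ j,
      Tm (Ψ.symm : MvPolynomial (Fin (n + (κ + κ))) k →ₐ[k] MvPolynomial (Fin (n + 2 * κ)) k) N
        y (j, 0) = aeval (fun i => y (eI n κ i, 0)) (Ph Ψ j) := by
    rintro y ⟨h1, -⟩ j
    show PowerSeries.coeff 0 (aeval (ar y) (Ψ.symm (X j))) = _
    rw [coeff_zero_ar, aeval_Ph, ← ((mem_WI f κ _).1 h1).1]
  refine isoD M (valid_pb f Ψ N hN) (valid_one (pd_WI f κ) (itr f κ) hN)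
    (fun z => Tm (Ψ : MvPolynomial (Fin (n + 2 * κ)) k →ₐ[k] MvPolynomial (Fin (n + (κ + κ))) k) N
      (fun p => z (Sum.inl p)))
    (fun y => Sum.elim (Tm (Ψ.symm : MvPolynomial (Fin (n + (κ + κ))) k →ₐ[k]
      MvPolynomial (Fin (n + 2 * κ)) k) N y) (fun i => y (eI n κ i, 0)))
    (regularOn_poly (fun i => ?_) _) (regularOn_poly (fun i => ?_) _) ?_ ?_ ?_ ?_ ?_ ?_
  · exact (isPF_Tm _ N i).comp (fun z : Pt k ((Fin (n + (κ + κ)) × Fin (N + 1)) ⊕ Fin n) =>
      fun p => z (Sum.inl p)) fun _ => IsPF.coord _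
  · rcases i with i | i
    · exact isPF_Tm _ N i
    · exact IsPF.coord _
  · rintro z hz
    have ho := org z hz
    obtain ⟨h1, h2, h3⟩ := hz
    refine ⟨?_, fun j hj => ?_, ?_⟩
    · rw [mem_WI]
      have e1 : (fun i => Tm (Ψ : MvPolynomial (Fin (n + 2 * κ)) k →ₐ[k]
          MvPolynomial (Fin (n + (κ + κ))) k) N (fun p => z (Sum.inl p)) (eI n κ i, 0)) =
          fun i => z (Sum.inr i) := by
        funext i
        rw [ho, ins_eI]
      rw [e1]
      exact ⟨funext ho, h2⟩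
    · rw [coeff_Tm _ _ _ _ hj.le, hF']
      have := h1 j hj.le
      rw [if_neg (by omega)] at this
      exact this
    · rw [Set.mem_singleton_iff, coeff_Tm _ _ _ _ le_rfl, hF']
      have := h1 N le_rfl
      rw [if_pos rfl] at this
      exact this
  · rintro y hy
    have ho := orgW y hy
    obtain ⟨h1, h2, h3⟩ := hy
    refine ⟨fun j hj => ?_, ((mem_WI f κ _).1 h1).2, funext ho⟩
    show PowerSeries.coeff j (aeval (ar (Tm (Ψ.symm : MvPolynomial (Fin (n + (κ + κ))) k →ₐ[k]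
      MvPolynomial (Fin (n + 2 * κ)) k) N y)) F) = _
    rw [coeff_Tm _ _ _ _ hj, hF]
    split_ifs with hjN
    · rw [hjN]
      exact h3
    · exact h2 j (by omega)
  · intro z hz
    have ho := org z hz
    funext p
    rcases p with p | p
    · exact congrFun (Tm_Tm _ _ hΨ' fun p => z (Sum.inl p)) p
    · show Tm _ N (fun p => z (Sum.inl p)) (eI n κ p, 0) = _
      rw [ho, ins_eI]
  · intro y _
    exact Tm_Tm _ _ hΨ'' y
  · intro z hz
    have ho := org z hz
    funext i
    show Tm _ N (fun p => z (Sum.inl p)) (eI n κ i, 0) = z (Sum.inr i)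
    rw [ho, ins_eI]
  · intro l _ z _
    funext p
    show PowerSeries.coeff (p.2 : ℕ) (aeval (ar (dact (wt (n + (κ + κ)) N) l
      fun p => z (Sum.inl p))) (Ψ (X p.1))) = l ^ (((p.2 : ℕ) : ℤ)) * _
    rw [coeff_dact, zpow_natCast]
    rfl

end pull

end Pool.Agent.Q223.TE
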